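import Mathlib

set_option autoImplicit false

namespace Pool.Agent.Helper926.RK

/-! ### Codes of finite positions -/

/-- the triple `(n, z, t)` is in the snapshot coded by the number `u` (binary digits) -/
def Mem (L u n z t : ℕ) : Prop := u.testBit ((n * 2 ^ L + z) * 2 ^ L + t) = true

/-- number of `i < N` with `f i = true` -/
def cntB (f : ℕ → Bool) : ℕ → ℕ
  | 0 => 0
  | N + 1 => cntB f N + bif f N then 1 else 0

/-- bound for the digits used by snapshots -/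
def Mb (L : ℕ) : ℕ := (L + 1) * 2 ^ L * 2 ^ L

/-- the snapshot `u` is closed under parents and has at most `D` slots per node -/
def Valid (D L u : ℕ) : Prop :=
  (∀ n < L, ∀ z < 2 ^ (n + 1), ∀ t < 2 ^ (n + 1),
    Mem L u (n + 1) z t → Mem L u n (z / 2) (t / 2)) ∧
  (∀ n < L + 1, ∀ z < 2 ^ n,
    cntB (fun t => u.testBit ((n * 2 ^ L + z) * 2 ^ L + t)) (2 ^ n) ≤ D)

/-- all demands of level `L` extending `τ` are hosted by an unkilled leaf (`κ` codes the set of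
killed leaves) -/
def GoodC (L h τ u κ : ℕ) : Prop :=
  ∀ t < 2 ^ L, t / 2 ^ (L - h) = τ → ∃ z, z < 2 ^ L ∧ (¬ κ.testBit z = true ∧ Mem L u L z t)

/-- `T` is a table of a winning strategy: entries `(u, κ, κ')` = in the position `(u, κ)` extend the
killed set to `κ'`. -/
def ValidTable (D h τ m L : ℕ) (T : List (ℕ × ℕ × ℕ)) : Prop :=
  h + m ≤ L ∧
  (∀ u < 2 ^ Mb L, Valid D L u → GoodC L h τ u 0 → ∃ b ∈ T, b.1 = u ∧ b.2.1 = 0) ∧
  (∀ b ∈ T, (∀ w < 2 ^ L, b.2.1.testBit w = true → b.2.2.testBit w = true) ∧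
    cntB (fun w => b.2.2.testBit w) (2 ^ L) ≤ 2 ^ (L - m) ∧
    ¬ GoodC L h τ b.1 b.2.2 ∧
    ∀ u < 2 ^ Mb L, Valid D L u →
      (∀ n < L + 1, ∀ z < 2 ^ n, ∀ t < 2 ^ n, Mem L b.1 n z t → Mem L u n z t) →
      GoodC L h τ u b.2.2 → ∃ b' ∈ T, b'.1 = u ∧ b'.2.1 = b.2.2)

end Pool.Agent.Helper926.RK
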