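import Mathlib
import Pool.Agent.Helper926.RK.RELib
import Pool.Agent.Helper926.RK.Codes

set_option autoImplicit false

namespace Pool.Agent.Helper926.RK

/-! #### computability of the ingredients -/

section aux

variable {α : Type*} [Primcodable α]

theorem cpow {f g : α → ℕ} (hf : Computable f) (hg : Computable g) :
    Computable (fun x => f x ^ g x) := by
  have h1 : Primrec₂ ((· ^ ·) : ℕ → ℕ → ℕ) := Primrec₂.unpaired'.1 Nat.Primrec.pow
  exact h1.to_comp.comp hf hg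

theorem cdiv {f g : α → ℕ} (hf : Computable f) (hg : Computable g) :
    Computable (fun x => f x / g x) := Primrec.nat_div.to_comp.comp hf hg

theorem cmod {f g : α → ℕ} (hf : Computable f) (hg : Computable g) :
    Computable (fun x => f x % g x) := Primrec.nat_mod.to_comp.comp hf hg

theorem ctestBit {f g : α → ℕ} (hf : Computable f) (hg : Computable g) :
    Computable (fun x => (f x).testBit (g x)) := by
  have h : ComputablePred fun x => (f x) / 2 ^ (g x) % 2 = 1 :=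
    RE.cp_eq (cmod (cdiv hf (cpow (Computable.const 2) hg)) (Computable.const 2))
      (Computable.const 1)
  refine (RE.cdecide h).of_eq fun x => ?_
  rw [Nat.testBit_eq_decide_div_mod_eq]

theorem ccntB {q : α → ℕ → Bool} (hq : Computable₂ q) {f : α → ℕ}
    (hf : Computable f) : Computable fun a => cntB (q a) (f a) := by
  have hc : Computable fun b : Bool => bif b then 1 else 0 :=
    Computable.cond Computable.id (Computable.const 1) (Computable.const 0)
  have h := Computable.nat_rec (f := f) (g := fun _ : α => 0)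
    (h := fun (a : α) (y : ℕ × ℕ) => y.2 + bif q a y.1 then 1 else 0) hf (Computable.const 0)
    (by
      refine Primrec.nat_add.to_comp.comp (Computable.snd.comp Computable.snd) ?_
      exact hc.comp (hq.comp Computable.fst (Computable.fst.comp Computable.snd)))
  refine h.of_eq fun a => ?_
  generalize f a = n
  induction n with
  | zero => rfl
  | succ n ih => simp only [cntB]; rw [← ih]

attribute [local fun_prop] cpow cdiv cmod ctestBit

theorem cp_Mem {L u n z t : α → ℕ} (hL : Computable L) (hu : Computable u) (hn : Computable n)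
    (hz : Computable z) (ht : Computable t) :
    ComputablePred fun a => Mem (L a) (u a) (n a) (z a) (t a) := by
  unfold Mem
  exact RE.cp_eq (by fun_prop) (by fun_prop)

theorem cp_Valid {D L u : α → ℕ} (hD : Computable D) (hL : Computable L) (hu : Computable u) :
    ComputablePred fun a => Valid (D a) (L a) (u a) := by
  unfold Valid
  refine RE.cp_and ?_ ?_
  · refine RE.cp_all_lt (p := fun (a : α) (n : ℕ) => ∀ z < 2 ^ (n + 1), ∀ t < 2 ^ (n + 1),
      Mem (L a) (u a) (n + 1) z t → Mem (L a) (u a) n (z / 2) (t / 2)) ?_ hL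
    refine RE.cp_all_lt (p := fun (x : α × ℕ) (z : ℕ) => ∀ t < 2 ^ (x.2 + 1),
      Mem (L x.1) (u x.1) (x.2 + 1) z t → Mem (L x.1) (u x.1) x.2 (z / 2) (t / 2)) ?_
      (by fun_prop)
    refine RE.cp_all_lt (p := fun (x : (α × ℕ) × ℕ) (t : ℕ) =>
      Mem (L x.1.1) (u x.1.1) (x.1.2 + 1) x.2 t →
        Mem (L x.1.1) (u x.1.1) x.1.2 (x.2 / 2) (t / 2)) ?_ (by fun_prop)
    refine RE.cp_imp ?_ ?_
    · refine cp_Mem ?_ ?_ ?_ ?_ ?_ <;> fun_prop
    · refine cp_Mem ?_ ?_ ?_ ?_ ?_ <;> fun_prop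
  · refine RE.cp_all_lt (p := fun (a : α) (n : ℕ) => ∀ z < 2 ^ n,
      cntB (fun t => (u a).testBit ((n * 2 ^ (L a) + z) * 2 ^ (L a) + t)) (2 ^ n) ≤ D a) ?_
      (by fun_prop)
    refine RE.cp_all_lt (p := fun (x : α × ℕ) (z : ℕ) =>
      cntB (fun t => (u x.1).testBit ((x.2 * 2 ^ (L x.1) + z) * 2 ^ (L x.1) + t)) (2 ^ x.2)
        ≤ D x.1) ?_ (by fun_prop)
    refine RE.cp_le ?_ (by fun_prop)
    refine ccntB (α := (α × ℕ) × ℕ) (q := fun x t =>
      (u x.1.1).testBit ((x.1.2 * 2 ^ (L x.1.1) + x.2) * 2 ^ (L x.1.1) + t)) ?_ (by fun_prop)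
    unfold Computable₂
    fun_prop

theorem cp_GoodC {L h τ u κ : α → ℕ} (hL : Computable L) (hh : Computable h) (hτ : Computable τ)
    (hu : Computable u) (hκ : Computable κ) :
    ComputablePred fun a => GoodC (L a) (h a) (τ a) (u a) (κ a) := by
  unfold GoodC
  refine RE.cp_all_lt (p := fun (a : α) (t : ℕ) => t / 2 ^ (L a - h a) = τ a →
    ∃ z, z < 2 ^ (L a) ∧ (¬ (κ a).testBit z = true ∧ Mem (L a) (u a) (L a) z t)) ?_
    (by fun_prop)
  refine RE.cp_imp (RE.cp_eq (by fun_prop) (by fun_prop)) ?_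
  refine RE.cp_ex_lt (p := fun (x : α × ℕ) (z : ℕ) =>
    (¬ (κ x.1).testBit z = true ∧ Mem (L x.1) (u x.1) (L x.1) z x.2)) ?_ (by fun_prop)
  refine RE.cp_and (RE.cp_not (RE.cp_eq (by fun_prop) (by fun_prop))) ?_
  refine cp_Mem ?_ ?_ ?_ ?_ ?_ <;> fun_prop

theorem cMb {L : α → ℕ} (hL : Computable L) : Computable fun a => Mb (L a) := by
  unfold Mb
  fun_prop

attribute [local fun_prop] cMb

theorem cp_VT {D h τ m L : α → ℕ} {T : α → List (ℕ × ℕ × ℕ)} (hD : Computable D)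
    (hh : Computable h) (hτ : Computable τ) (hm : Computable m) (hL : Computable L)
    (hT : Computable T) :
    ComputablePred fun a => ValidTable (D a) (h a) (τ a) (m a) (L a) (T a) := by
  unfold ValidTable
  refine RE.cp_and (RE.cp_le (by fun_prop) (by fun_prop)) (RE.cp_and ?_ ?_)
  · refine RE.cp_all_lt (p := fun (a : α) (u : ℕ) => Valid (D a) (L a) u →
      GoodC (L a) (h a) (τ a) u 0 → ∃ b ∈ T a, b.1 = u ∧ b.2.1 = 0) ?_ (by fun_prop)
    refine RE.cp_imp (cp_Valid (by fun_prop) (by fun_prop) (by fun_prop)) ?_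
    refine RE.cp_imp (cp_GoodC (by fun_prop) (by fun_prop) (by fun_prop) (by fun_prop)
      (by fun_prop)) ?_
    refine RE.cp_ex_mem (p := fun (x : α × ℕ) (b : ℕ × ℕ × ℕ) => b.1 = x.2 ∧ b.2.1 = 0) ?_
      (by fun_prop)
    exact RE.cp_and (RE.cp_eq (by fun_prop) (by fun_prop)) (RE.cp_eq (by fun_prop) (by fun_prop))
  · refine RE.cp_all_mem (p := fun (a : α) (b : ℕ × ℕ × ℕ) =>
      (∀ w < 2 ^ (L a), b.2.1.testBit w = true → b.2.2.testBit w = true) ∧
      cntB (fun w => b.2.2.testBit w) (2 ^ (L a)) ≤ 2 ^ (L a - m a) ∧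
      ¬ GoodC (L a) (h a) (τ a) b.1 b.2.2 ∧
      ∀ u < 2 ^ Mb (L a), Valid (D a) (L a) u →
        (∀ n < L a + 1, ∀ z < 2 ^ n, ∀ t < 2 ^ n, Mem (L a) b.1 n z t → Mem (L a) u n z t) →
        GoodC (L a) (h a) (τ a) u b.2.2 → ∃ b' ∈ T a, b'.1 = u ∧ b'.2.1 = b.2.2) ?_ hT
    refine RE.cp_and ?_ (RE.cp_and ?_ (RE.cp_and ?_ ?_))
    · refine RE.cp_all_lt (p := fun (x : α × (ℕ × ℕ × ℕ)) (w : ℕ) =>
        x.2.2.1.testBit w = true → x.2.2.2.testBit w = true) ?_ (by fun_prop)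
      exact RE.cp_imp (RE.cp_eq (by fun_prop) (by fun_prop))
        (RE.cp_eq (by fun_prop) (by fun_prop))
    · refine RE.cp_le ?_ (by fun_prop)
      refine ccntB (α := α × (ℕ × ℕ × ℕ)) (q := fun x w => x.2.2.2.testBit w) ?_ (by fun_prop)
      unfold Computable₂
      fun_prop
    · exact RE.cp_not (cp_GoodC (by fun_prop) (by fun_prop) (by fun_prop) (by fun_prop)
        (by fun_prop))
    · refine RE.cp_all_lt (p := fun (x : α × (ℕ × ℕ × ℕ)) (u : ℕ) =>
        Valid (D x.1) (L x.1) u →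
        (∀ n < L x.1 + 1, ∀ z < 2 ^ n, ∀ t < 2 ^ n,
          Mem (L x.1) x.2.1 n z t → Mem (L x.1) u n z t) →
        GoodC (L x.1) (h x.1) (τ x.1) u x.2.2.2 →
          ∃ b' ∈ T x.1, b'.1 = u ∧ b'.2.1 = x.2.2.2) ?_ (by fun_prop)
      refine RE.cp_imp (cp_Valid (by fun_prop) (by fun_prop) (by fun_prop)) ?_
      refine RE.cp_imp ?_ ?_
      · refine RE.cp_all_lt (p := fun (y : (α × (ℕ × ℕ × ℕ)) × ℕ) (n : ℕ) =>
          ∀ z < 2 ^ n, ∀ t < 2 ^ n,
            Mem (L y.1.1) y.1.2.1 n z t → Mem (L y.1.1) y.2 n z t) ?_ (by fun_prop)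
        refine RE.cp_all_lt (p := fun (y : ((α × (ℕ × ℕ × ℕ)) × ℕ) × ℕ) (z : ℕ) =>
          ∀ t < 2 ^ y.2,
            Mem (L y.1.1.1) y.1.1.2.1 y.2 z t → Mem (L y.1.1.1) y.1.2 y.2 z t) ?_ (by fun_prop)
        refine RE.cp_all_lt (p := fun (y : (((α × (ℕ × ℕ × ℕ)) × ℕ) × ℕ) × ℕ) (t : ℕ) =>
            Mem (L y.1.1.1.1) y.1.1.1.2.1 y.1.2 y.2 t →
              Mem (L y.1.1.1.1) y.1.1.2 y.1.2 y.2 t) ?_ (by fun_prop)
        refine RE.cp_imp ?_ ?_
        · refine cp_Mem ?_ ?_ ?_ ?_ ?_ <;> fun_prop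
        · refine cp_Mem ?_ ?_ ?_ ?_ ?_ <;> fun_prop
      · refine RE.cp_imp (cp_GoodC (by fun_prop) (by fun_prop) (by fun_prop) (by fun_prop)
          (by fun_prop)) ?_
        refine RE.cp_ex_mem (p := fun (y : (α × (ℕ × ℕ × ℕ)) × ℕ) (b' : ℕ × ℕ × ℕ) =>
          b'.1 = y.2 ∧ b'.2.1 = y.1.2.2.2) ?_ (by fun_prop)
        exact RE.cp_and (RE.cp_eq (by fun_prop) (by fun_prop))
          (RE.cp_eq (by fun_prop) (by fun_prop))

end aux

/-- being a winning table is decidable by an algorithm -/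
theorem cp_validTable : ComputablePred fun x : (ℕ × ℕ × ℕ × ℕ) × (ℕ × List (ℕ × ℕ × ℕ)) =>
    ValidTable x.1.1 x.1.2.1 x.1.2.2.1 x.1.2.2.2 x.2.1 x.2.2 := by
  exact cp_VT (α := (ℕ × ℕ × ℕ × ℕ) × (ℕ × List (ℕ × ℕ × ℕ)))
    (D := fun x => x.1.1) (h := fun x => x.1.2.1) (τ := fun x => x.1.2.2.1)
    (m := fun x => x.1.2.2.2) (L := fun x => x.2.1) (T := fun x => x.2.2)
    (by fun_prop) (by fun_prop) (by fun_prop) (by fun_prop) (by fun_prop) (by fun_prop)

end Pool.Agent.Helper926.RK
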