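import Mathlib

set_option autoImplicit false

namespace Pool.Agent.Helper926.RK

/-! ### Basic definitions (Cantor space, Martin-Löf randomness, conditional complexity) -/

/-- the string of the first `n` bits of the real `A` -/
def pre (A : ℕ → Bool) (n : ℕ) : List Bool := (List.range n).map A

/-- the uniform (coin tossing) measure on Cantor space `ℕ → Bool` -/
noncomputable def coin : MeasureTheory.Measure (ℕ → Bool) :=
  MeasureTheory.Measure.infinitePi fun _ : ℕ => (PMF.uniformOfFintype Bool).toMeasure

/-- A Martin-Löf test: a uniformly recursively enumerable sequence of open sets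
`U_k = {Z | some initial segment of Z is enumerated in W k}` with measure at most `2^(-k)`. -/
structure IsMLTest (W : ℕ → List Bool → Prop) : Prop where
  re : REPred fun p : ℕ × List Bool => W p.1 p.2
  small : ∀ k, coin {Z | ∃ n, W k (pre Z n)} ≤ (2⁻¹ : ENNReal) ^ k

/-- `Z` is Martin-Löf random (1-random): it passes every Martin-Löf test. -/
def MLRandom (Z : ℕ → Bool) : Prop :=
  ∀ W, IsMLTest W → ∃ k, ∀ n, ¬ W k (pre Z n)

/-- A prefix-free machine with a condition: a partial recursive function `M` of a program `p` and
a condition `y` such that for each `y` the set of halting programs is prefix-free. -/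
structure IsPrefixFreeMachine (M : List Bool → List Bool →. List Bool) : Prop where
  partrec : Partrec₂ M
  prefixFree : ∀ y p q, (M p y).Dom → (M q y).Dom → p <+: q → p = q

/-- A universal (additively optimal) prefix-free machine with a condition. -/
structure IsUniversal (U : List Bool → List Bool →. List Bool) : Prop
    extends IsPrefixFreeMachine U where
  univ : ∀ M, IsPrefixFreeMachine M →
    ∃ c : ℕ, ∀ p y x, x ∈ M p y → ∃ q : List Bool, q.length ≤ p.length + c ∧ x ∈ U q y

/-- Conditional prefix-free complexity `K(x | y)` with respect to the machine `U`: the length of a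
shortest program that outputs `x` given `y`. -/
noncomputable def condK (U : List Bool → List Bool →. List Bool) (x y : List Bool) : ℕ∞ :=
  ⨅ p ∈ {p : List Bool | x ∈ U p y}, (p.length : ℕ∞)

/-- `A ≤_rK B` (with respect to the machine `U`): `K(A↾n | B↾n)` is bounded. -/
def RKReducible (U : List Bool → List Bool →. List Bool) (A B : ℕ → Bool) : Prop :=
  ∃ c : ℕ, ∀ n, condK U (pre A n) (pre B n) ≤ c

open MeasureTheory in
/-- Martin-Löf random reals exist (sanity check of the definition) -/
theorem exists_mlRandom : ∃ Z, MLRandom Z := by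
  classical
  have hprob : IsProbabilityMeasure coin := by
    unfold coin
    infer_instance
  let Wc : Nat.Partrec.Code → ℕ → List Bool → Prop := fun c k σ =>
    (c.eval (Encodable.encode (k, σ))).Dom
  have hW : ∀ W : ℕ → List Bool → Prop, IsMLTest W → ∃ c, W = Wc c := by
    intro W hW
    have h1 : Nat.Partrec fun n => Part.bind (Encodable.decode (α := ℕ × List Bool) n)
      fun a => ((fun x : ℕ × List Bool => Part.assert (W x.1 x.2) fun _ => Part.some ()) a).map
        Encodable.encode := hW.re
    obtain ⟨c, hc⟩ := Nat.Partrec.Code.exists_code.1 h1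
    refine ⟨c, ?_⟩
    funext k σ
    apply propext
    change W k σ ↔ (c.eval (Encodable.encode (k, σ))).Dom
    rw [hc]
    simp [Encodable.encodek, Part.assert]
  have hnull : coin (⋃ c : Nat.Partrec.Code, {Z | IsMLTest (Wc c) ∧ ∀ k, ∃ n, Wc c k (pre Z n)})
      = 0 := by
    rw [measure_iUnion_null_iff]
    intro c
    by_cases hc : IsMLTest (Wc c)
    · refine le_antisymm ?_ (zero_le)
      refine ge_of_tendsto' (f := fun k : ℕ => (2⁻¹ : ENNReal) ^ k)
        (ENNReal.tendsto_pow_atTop_nhds_zero_of_lt_one (by norm_num)) fun k => ?_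
      exact le_trans (measure_mono fun Z hZ => hZ.2 k) (hc.small k)
    · have : {Z | IsMLTest (Wc c) ∧ ∀ k, ∃ n, Wc c k (pre Z n)} = ∅ := by
        ext Z
        simp [hc]
      rw [this, measure_empty]
  have hne : ∃ Z, Z ∉ ⋃ c : Nat.Partrec.Code,
      {Z | IsMLTest (Wc c) ∧ ∀ k, ∃ n, Wc c k (pre Z n)} := by
    by_contra h
    push Not at h
    have h1 : (⋃ c : Nat.Partrec.Code,
      {Z | IsMLTest (Wc c) ∧ ∀ k, ∃ n, Wc c k (pre Z n)}) = Set.univ := Set.eq_univ_of_forall h
    rw [h1, measure_univ] at hnull
    exact one_ne_zero hnull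
  obtain ⟨Z, hZ⟩ := hne
  refine ⟨Z, fun W hWt => ?_⟩
  obtain ⟨c, hc⟩ := hW W hWt
  by_contra hcon
  push Not at hcon
  apply hZ
  rw [Set.mem_iUnion]
  refine ⟨c, ?_⟩
  rw [← hc]
  exact ⟨hWt, hcon⟩

end Pool.Agent.Helper926.RK
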