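import Mathlib
import Pool.Agent.Helper926.RK.RELib
import Pool.Agent.Helper926.RK.Codes

set_option autoImplicit false

namespace Pool.Agent.Helper926.RK

/-! ### auxiliary lemmas for the effective theorem -/

section efaux

open Pool.Agent.Helper926.RE

variable {α : Type*} [Primcodable α]

theorem ef_pow {f : α → ℕ} (hf : Computable f) : Computable fun x => 2 ^ f x := by
  have h := Computable.nat_rec (f := f) (g := fun _ : α => 1)
    (h := fun (_ : α) (y : ℕ × ℕ) => y.2 * 2) hf (Computable.const 1) (by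
      unfold Computable₂
      fun_prop)
  refine h.of_eq fun a => ?_
  generalize f a = n
  induction n with
  | zero => rfl
  | succ n ih => rw [pow_succ, ← ih]

theorem ef_div {f g : α → ℕ} (hf : Computable f) (hg : Computable g) :
    Computable fun x => f x / g x := Primrec.nat_div.to_comp.comp hf hg

theorem ef_mod {f g : α → ℕ} (hf : Computable f) (hg : Computable g) :
    Computable fun x => f x % g x := Primrec.nat_mod.to_comp.comp hf hg

attribute [local fun_prop] ef_pow ef_div ef_mod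

theorem ef_cpbit {f g : α → ℕ} (hf : Computable f) (hg : Computable g) :
    ComputablePred fun a => (f a).testBit (g a) = true := by
  have h : ComputablePred fun a => f a / 2 ^ g a % 2 = 1 := cp_eq (by fun_prop) (by fun_prop)
  refine h.of_eq fun a => ?_
  rw [Nat.testBit_eq_decide_div_mod_eq, decide_eq_true_iff]

theorem ef_cpMem {fL fu fn fz ft : α → ℕ} (hL : Computable fL) (hu : Computable fu)
    (hn : Computable fn) (hz : Computable fz) (ht : Computable ft) :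
    ComputablePred fun a => Mem (fL a) (fu a) (fn a) (fz a) (ft a) := by
  unfold Mem
  exact ef_cpbit hu (by fun_prop)

theorem ef_Rs {q : ℕ × ℕ × ℕ × ℕ → ℕ → Bool} (hq : Computable₂ q) {s c i z t : α → ℕ}
    (hs : Computable s) (hc : Computable c) (hi : Computable i) (hz : Computable z)
    (ht : Computable t) : Computable fun a => exB (q (c a, i a, z a, t a)) (s a + 1) := by
  refine computable_exB (q := fun a n => q (c a, i a, z a, t a) n) ?_ (by fun_prop)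
  unfold Computable₂ at *
  exact hq.comp (f := fun x : (ℕ × ℕ × ℕ × ℕ) × ℕ => q x.1 x.2)
    (g := fun x : α × ℕ => ((c x.1, i x.1, z x.1, t x.1), x.2)) (by fun_prop)

/-- hosting relation at stage `s` -/
def Hs (q : ℕ × ℕ × ℕ × ℕ → ℕ → Bool) (c s n z t : ℕ) : Prop :=
  ∀ i < n + 1, exB (q (c, i, z / 2 ^ (n - i), t / 2 ^ (n - i))) (s + 1) = true

theorem ef_cpHs {q : ℕ × ℕ × ℕ × ℕ → ℕ → Bool} (hq : Computable₂ q) {c s n z t : α → ℕ}
    (hc : Computable c) (hs : Computable s) (hn : Computable n) (hz : Computable z)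
    (ht : Computable t) : ComputablePred fun a => Hs q (c a) (s a) (n a) (z a) (t a) := by
  unfold Hs
  refine cp_all_lt (p := fun a i => exB (q (c a, i, z a / 2 ^ (n a - i), t a / 2 ^ (n a - i)))
    (s a + 1) = true) ?_ (by fun_prop)
  refine cp_eq ?_ (by fun_prop)
  exact ef_Rs hq (s := fun x : α × ℕ => s x.1) (c := fun x => c x.1) (i := fun x => x.2)
    (z := fun x => z x.1 / 2 ^ (n x.1 - x.2)) (t := fun x => t x.1 / 2 ^ (n x.1 - x.2))
    (by fun_prop) (by fun_prop) (by fun_prop) (by fun_prop) (by fun_prop)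

end efaux

theorem ef_coding (P : ℕ → Prop) (N : ℕ) :
    ∃ v < 2 ^ N, ∀ i < N, (v.testBit i = true ↔ P i) := by
  classical
  refine ⟨Nat.ofBits (fun i : Fin N => decide (P i)), Nat.ofBits_lt_two_pow _, fun i hi => ?_⟩
  rw [Nat.testBit_ofBits_lt _ _ hi, decide_eq_true_iff]

theorem ef_snap (L : ℕ) (H : ℕ → ℕ → ℕ → Prop) : ∃ u < 2 ^ Mb L,
    ∀ n < L + 1, ∀ z < 2 ^ n, ∀ t < 2 ^ n, (Mem L u n z t ↔ H n z t) := by
  obtain ⟨u, hu, h⟩ := ef_coding
    (fun i => H (i / 2 ^ L / 2 ^ L) (i / 2 ^ L % 2 ^ L) (i % 2 ^ L)) (Mb L)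
  refine ⟨u, hu, fun n hn z hz t ht => ?_⟩
  have hz' : z < 2 ^ L := lt_of_lt_of_le hz (Nat.pow_le_pow_right (by norm_num) (by omega))
  have ht' : t < 2 ^ L := lt_of_lt_of_le ht (Nat.pow_le_pow_right (by norm_num) (by omega))
  have hpos : 0 < 2 ^ L := by positivity
  have hidx : (n * 2 ^ L + z) * 2 ^ L + t < Mb L := by
    unfold Mb
    have h1 : n * 2 ^ L + z + 1 ≤ (L + 1) * 2 ^ L := by
      have : (n + 1) * 2 ^ L ≤ (L + 1) * 2 ^ L := Nat.mul_le_mul_right _ (by omega)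
      have e : (n + 1) * 2 ^ L = n * 2 ^ L + 2 ^ L := by ring
      omega
    have h2 : (n * 2 ^ L + z + 1) * 2 ^ L ≤ (L + 1) * 2 ^ L * 2 ^ L := Nat.mul_le_mul_right _ h1
    have e : (n * 2 ^ L + z + 1) * 2 ^ L = (n * 2 ^ L + z) * 2 ^ L + 2 ^ L := by ring
    omega
  unfold Mem
  rw [h _ hidx]
  have e1 : ((n * 2 ^ L + z) * 2 ^ L + t) / 2 ^ L = n * 2 ^ L + z := by
    rw [mul_comm, Nat.mul_add_div hpos, Nat.div_eq_of_lt ht', add_zero]
  have e2 : ((n * 2 ^ L + z) * 2 ^ L + t) % 2 ^ L = t := by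
    rw [mul_comm, Nat.mul_add_mod, Nat.mod_eq_of_lt ht']
  have e3 : (n * 2 ^ L + z) / 2 ^ L = n := by
    rw [mul_comm, Nat.mul_add_div hpos, Nat.div_eq_of_lt hz', add_zero]
  have e4 : (n * 2 ^ L + z) % 2 ^ L = z := by
    rw [mul_comm, Nat.mul_add_mod, Nat.mod_eq_of_lt hz']
  rw [e1, e2, e3, e4]

theorem ef_cntB (f : ℕ → Bool) (N : ℕ) :
    cntB f N = ((Finset.range N).filter (fun i => f i = true)).card := by
  induction N with
  | zero => rfl
  | succ N ih =>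
    rw [Finset.range_add_one, Finset.filter_insert]
    unfold cntB
    rw [ih]
    by_cases h : f N = true
    · rw [if_pos h, Finset.card_insert_of_notMem (by simp), h]
      rfl
    · rw [if_neg h]
      have : f N = false := by simpa using h
      rw [this]
      rfl

/-- stabilisation of a finite monotone family -/
theorem ef_stab {ι : Type*} (B : ℕ → ι → Prop) (hB : ∀ s x, B s x → B (s + 1) x) (F : Finset ι) :
    ∃ s₀, ∀ x ∈ F, ∀ s, B s x → B s₀ x := by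
  classical
  have hmono : ∀ x s s', s ≤ s' → B s x → B s' x := by
    intro x s s' hs
    induction s', hs using Nat.le_induction with
    | base => exact id
    | succ k _ ih => intro h; exact hB _ _ (ih h)
  have h : ∀ x, ∃ s, ∀ s', B s' x → B s x := by
    intro x
    by_cases hx : ∃ s, B s x
    · obtain ⟨s, hs⟩ := hx
      exact ⟨s, fun _ _ => hs⟩
    · exact ⟨0, fun s' hs' => absurd ⟨s', hs'⟩ hx⟩
  choose g hg using h
  refine ⟨F.sup g, fun x hx s hs => ?_⟩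
  exact hmono x _ _ (Finset.le_sup hx) (hg x s hs)

theorem ef_core (D h τ m L : ℕ) (T : List (ℕ × ℕ × ℕ)) (hT : ValidTable D h τ m L T)
    (H : ℕ → ℕ → ℕ → ℕ → Prop) (hmono : ∀ s n z t, H s n z t → H (s + 1) n z t)
    (u : ℕ → ℕ) (hu : ∀ s, u s < 2 ^ Mb L)
    (hmem : ∀ s, ∀ n < L + 1, ∀ z < 2 ^ n, ∀ t < 2 ^ n, (Mem L (u s) n z t ↔ H s n z t))
    (hval : ∀ s, Valid D L (u s)) (κ : ℕ → ℕ) (h0 : κ 0 = 0)
    (hstep : ∀ s, (∃ b ∈ T, b.1 = u s ∧ b.2.1 = κ s ∧ κ (s + 1) = b.2.2) ∨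
      ((∀ b ∈ T, ¬ (b.1 = u s ∧ b.2.1 = κ s)) ∧ κ (s + 1) = κ s)) :
    (∀ s, cntB (fun w => (κ s).testBit w) (2 ^ L) ≤ 2 ^ (L - m)) ∧
    (∀ s, ∀ w < 2 ^ L, (κ s).testBit w = true → (κ (s + 1)).testBit w = true) ∧
    ∃ s t, t < 2 ^ L ∧ t / 2 ^ (L - h) = τ ∧
      ∀ z < 2 ^ L, (κ s).testBit z = true ∨ ∀ s', ¬ H s' L z t := by
  classical
  obtain ⟨_, hT1, hT2⟩ := hT
  have hcnt : ∀ s, cntB (fun w => (κ s).testBit w) (2 ^ L) ≤ 2 ^ (L - m) := by
    intro s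
    induction s with
    | zero =>
      rw [h0, ef_cntB]
      simp
    | succ s ih =>
      rcases hstep s with ⟨b, hb, _, _, h3⟩ | ⟨_, h3⟩
      · rw [h3]; exact (hT2 b hb).2.1
      · rw [h3]; exact ih
  have hkm : ∀ s, ∀ w < 2 ^ L, (κ s).testBit w = true → (κ (s + 1)).testBit w = true := by
    intro s w hw hk
    rcases hstep s with ⟨b, hb, _, h2, h3⟩ | ⟨_, h3⟩
    · rw [h3]
      rw [← h2] at hk
      exact (hT2 b hb).1 w hw hk
    · rw [h3]; exact hk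
  refine ⟨hcnt, hkm, ?_⟩
  have hinv : ∀ s, ∀ u' < 2 ^ Mb L, Valid D L u' →
      (∀ n < L + 1, ∀ z < 2 ^ n, ∀ t < 2 ^ n, Mem L (u s) n z t → Mem L u' n z t) →
      GoodC L h τ u' (κ s) → ∃ b ∈ T, b.1 = u' ∧ b.2.1 = κ s := by
    intro s
    induction s with
    | zero =>
      intro u' hu' hv _ hg
      rw [h0] at hg ⊢
      exact hT1 u' hu' hv hg
    | succ s ih =>
      intro u' hu' hv hsub hg
      have hsub' : ∀ n < L + 1, ∀ z < 2 ^ n, ∀ t < 2 ^ n, Mem L (u s) n z t → Mem L u' n z t := by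
        intro n hn z hz t ht hm
        apply hsub n hn z hz t ht
        rw [hmem (s + 1) n hn z hz t ht]
        apply hmono
        rw [← hmem s n hn z hz t ht]
        exact hm
      rcases hstep s with ⟨b, hb, h1, h2, h3⟩ | ⟨_, h3⟩
      · rw [h3] at hg ⊢
        exact (hT2 b hb).2.2.2 u' hu' hv (by rw [h1]; exact hsub') hg
      · rw [h3] at hg ⊢
        exact ih u' hu' hv hsub' hg
  obtain ⟨s1, hs1⟩ := ef_stab (fun s w => (κ s).testBit w = true ∧ w < 2 ^ L)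
    (fun s w hw => ⟨hkm s w hw.2 hw.1, hw.2⟩) (Finset.range (2 ^ L))
  obtain ⟨s2, hs2⟩ := ef_stab (fun s (x : ℕ × ℕ) => H s L x.1 x.2)
    (fun s x hx => hmono _ _ _ _ hx) ((Finset.range (2 ^ L)) ×ˢ (Finset.range (2 ^ L)))
  have kmono : ∀ s s', s ≤ s' → ∀ w < 2 ^ L, (κ s).testBit w = true → (κ s').testBit w = true := by
    intro s s' hs w hw
    induction s', hs using Nat.le_induction with
    | base => exact id
    | succ k _ ih => intro hk; exact hkm _ _ hw (ih hk)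
  have Hmono : ∀ s s', s ≤ s' → ∀ n z t, H s n z t → H s' n z t := by
    intro s s' hs n z t
    induction s', hs using Nat.le_induction with
    | base => exact id
    | succ k _ ih => intro hk; exact hmono _ _ _ _ (ih hk)
  set s₀ := max s1 s2 with hs₀
  have hK : ∀ w < 2 ^ L, ∀ s, (κ s).testBit w = true → (κ s₀).testBit w = true := by
    intro w hw s hs
    exact kmono s1 s₀ (le_max_left _ _) w hw (hs1 w (Finset.mem_range.2 hw) s ⟨hs, hw⟩).1
  have hH : ∀ z < 2 ^ L, ∀ t < 2 ^ L, ∀ s, H s L z t → H s₀ L z t := by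
    intro z hz t ht s hs
    exact Hmono s2 s₀ (le_max_right _ _) L z t
      (hs2 (z, t) (Finset.mem_product.2 ⟨Finset.mem_range.2 hz, Finset.mem_range.2 ht⟩) s hs)
  have hnot : ¬ GoodC L h τ (u s₀) (κ s₀) := by
    intro hg
    obtain ⟨b0, hb0, hb01, hb02⟩ := hinv s₀ (u s₀) (hu s₀) (hval s₀)
      (fun n _ z _ t _ hm => hm) hg
    rcases hstep s₀ with ⟨b, hb, h1, h2, h3⟩ | ⟨h3, _⟩
    · apply (hT2 b hb).2.2.1
      rw [h1, ← h3]
      intro t ht htt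
      obtain ⟨z, hz, hz1, hz2⟩ := hg t ht htt
      refine ⟨z, hz, ?_, hz2⟩
      intro hcon
      exact hz1 (hK z hz _ hcon)
    · exact h3 b0 hb0 ⟨hb01, hb02⟩
  unfold GoodC at hnot
  push Not at hnot
  obtain ⟨t, ht, htt, hz⟩ := hnot
  refine ⟨s₀, t, ht, htt, fun z hz' => ?_⟩
  by_cases hk : (κ s₀).testBit z = true
  · exact Or.inl hk
  · right
    intro s' hs'
    have h1 := hH z hz' t ht s' hs'
    have h2 := (hmem s₀ L (by omega) z hz' t ht).2 h1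
    exact hz z hz' (by simpa using hk) h2


theorem ef_valid {q : ℕ × ℕ × ℕ × ℕ → ℕ → Bool} {R : ℕ → ℕ → ℕ → ℕ → Prop}
    (hqR : ∀ a : ℕ × ℕ × ℕ × ℕ, R a.1 a.2.1 a.2.2.1 a.2.2.2 ↔ ∃ n, q a n = true)
    (hb : ∀ c i z (F : Finset ℕ), (∀ t ∈ F, R c i z t) → F.card ≤ 2 ^ (c + 1))
    (c L u s : ℕ)
    (hm : ∀ n < L + 1, ∀ z < 2 ^ n, ∀ t < 2 ^ n, (Mem L u n z t ↔ Hs q c s n z t)) :
    Valid (2 ^ (c + 1)) L u := by
  refine ⟨fun n hn z hz t ht h => ?_, fun n hn z hz => ?_⟩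
  · rw [hm (n + 1) (by omega) z hz t ht] at h
    rw [hm n (by omega) (z / 2) (by rw [pow_succ] at hz; omega) (t / 2)
      (by rw [pow_succ] at ht; omega)]
    intro i hi
    have h1 := h i (by omega)
    have e : ∀ x : ℕ, x / 2 / 2 ^ (n - i) = x / 2 ^ (n + 1 - i) := by
      intro x
      rw [Nat.div_div_eq_div_mul]
      congr 1
      rw [show n + 1 - i = (n - i) + 1 by omega, pow_succ, mul_comm]
    rw [e, e]
    exact h1
  · rw [ef_cntB]
    apply hb c n z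
    intro t ht
    rw [Finset.mem_filter, Finset.mem_range] at ht
    have h1 := (hm n hn z hz t ht.1).1 ht.2
    have h2 := h1 n (by omega)
    rw [Nat.sub_self, pow_zero, Nat.div_one, Nat.div_one,
      Pool.Agent.Helper926.RE.exB_iff] at h2
    obtain ⟨i, _, hi⟩ := h2
    exact (hqR (c, n, z, t)).2 ⟨i, hi⟩

theorem ef_exB_mono (f : ℕ → Bool) (s s' : ℕ) (h : s ≤ s')
    (hf : Pool.Agent.Helper926.RE.exB f s = true) :
    Pool.Agent.Helper926.RE.exB f s' = true := by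
  rw [Pool.Agent.Helper926.RE.exB_iff] at hf ⊢
  obtain ⟨i, hi, hi'⟩ := hf
  exact ⟨i, by omega, hi'⟩

section main

open Pool.Agent.Helper926.RE

attribute [local fun_prop] ef_pow ef_div ef_mod

/-- The effective theorem: `R c i z t` says that the demand `t` (a string of length `i`, coded as a
number `< 2^i`) is `c`-listed at the node `z` of level `i`.  `V k l w` says that the leaf `w` of
level `l` is killed in the `k`-th test. The hypotheses `htab` and `hcp` are proved elsewhere. -/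
theorem effective
    (htab : ∀ D h τ m : ℕ, 1 ≤ D → τ < 2 ^ h → ∃ L T, ValidTable D h τ m L T)
    (hcp : ComputablePred fun x : (ℕ × ℕ × ℕ × ℕ) × (ℕ × List (ℕ × ℕ × ℕ)) =>
      ValidTable x.1.1 x.1.2.1 x.1.2.2.1 x.1.2.2.2 x.2.1 x.2.2)
    (R : ℕ → ℕ → ℕ → ℕ → Prop)
    (hR : REPred fun x : ℕ × ℕ × ℕ × ℕ => R x.1 x.2.1 x.2.2.1 x.2.2.2)
    (hb : ∀ c i z (F : Finset ℕ), (∀ t ∈ F, R c i z t) → F.card ≤ 2 ^ (c + 1)) :
    ∃ V : ℕ → ℕ → ℕ → Prop,
      (REPred fun x : ℕ × ℕ × ℕ => V x.1 x.2.1 x.2.2) ∧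
      (∀ k, ∃ (L : ℕ → ℕ) (S : ℕ → Finset ℕ),
        (∀ j, k + j + 1 ≤ L j ∧ (S j).card ≤ 2 ^ (L j - (k + j + 1))) ∧
        ∀ l w, V k l w ↔ ∃ j, l = L j ∧ w ∈ S j) ∧
      (∀ k c h τ, τ < 2 ^ h → ∃ L t, h ≤ L ∧ t < 2 ^ L ∧ t / 2 ^ (L - h) = τ ∧
        ∀ z < 2 ^ L, ¬ V k L z → ∃ i ≤ L, ¬ R c i (z / 2 ^ (L - i)) (t / 2 ^ (L - i))) := by
  classical
  obtain ⟨q, hq, hqR⟩ := re_iff.1 hR
  obtain ⟨cf, hcf, ecf⟩ : ∃ f : ℕ → ℕ, Computable f ∧ ∀ j, f j = (Nat.unpair j).1 :=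
    ⟨_, by fun_prop, fun j => rfl⟩
  obtain ⟨hf, hhf, ehf⟩ : ∃ f : ℕ → ℕ, Computable f ∧
      ∀ j, f j = (Nat.unpair (Nat.unpair j).2).1 := ⟨_, by fun_prop, fun j => rfl⟩
  obtain ⟨tf, htf, etf⟩ : ∃ f : ℕ → ℕ, Computable f ∧
      ∀ j, f j = (Nat.unpair (Nat.unpair j).2).2 % 2 ^ hf j := ⟨_, by fun_prop, fun j => rfl⟩
  -- tables
  obtain ⟨LT, hLT, eLT⟩ := exists_selector
    (r := fun (p : ℕ × ℕ) (b : ℕ × List (ℕ × ℕ × ℕ)) =>
      ValidTable (2 ^ (cf p.2 + 1)) (hf p.2) (tf p.2) (p.1 + p.2 + 1) b.1 b.2)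
    ((cp_comp hcp (f := fun x : (ℕ × ℕ) × (ℕ × List (ℕ × ℕ × ℕ)) =>
      ((2 ^ (cf x.1.2 + 1), hf x.1.2, tf x.1.2, x.1.1 + x.1.2 + 1), x.2)) (by fun_prop)).to_re)
    (fun p => by
      obtain ⟨L, T, hLT⟩ := htab (2 ^ (cf p.2 + 1)) (hf p.2) (tf p.2) (p.1 + p.2 + 1)
        Nat.one_le_two_pow (by rw [etf]; exact Nat.mod_lt _ (by positivity))
      exact ⟨(L, T), hLT⟩)
  obtain ⟨Lf, hLf, eLf⟩ : ∃ f : ℕ × ℕ → ℕ, Computable f ∧ ∀ p, f p = (LT p).1 :=
    ⟨_, Computable.fst.comp hLT, fun j => rfl⟩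
  obtain ⟨Tf, hTf, eTf⟩ : ∃ f : ℕ × ℕ → List (ℕ × ℕ × ℕ), Computable f ∧ ∀ p, f p = (LT p).2 :=
    ⟨_, Computable.snd.comp hLT, fun j => rfl⟩
  have hVT : ∀ p : ℕ × ℕ, ValidTable (2 ^ (cf p.2 + 1)) (hf p.2) (tf p.2) (p.1 + p.2 + 1)
      (Lf p) (Tf p) := by
    intro p
    rw [eLf, eTf]
    exact eLT p
  -- snapshots
  obtain ⟨uf, huf, euf⟩ := exists_selector
    (r := fun (x : (ℕ × ℕ) × ℕ) (u : ℕ) => u < 2 ^ Mb (Lf x.1) ∧
      ∀ n < Lf x.1 + 1, ∀ z < 2 ^ n, ∀ t < 2 ^ n,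
        (Mem (Lf x.1) u n z t ↔ Hs q (cf x.1.2) x.2 n z t))
    (by
      refine ComputablePred.to_re ?_
      refine cp_and ?_ ?_
      · unfold Mb
        exact cp_lt (by fun_prop) (by fun_prop)
      · refine cp_all_lt (p := fun (x : ((ℕ × ℕ) × ℕ) × ℕ) n => ∀ z < 2 ^ n, ∀ t < 2 ^ n,
          (Mem (Lf x.1.1) x.2 n z t ↔ Hs q (cf x.1.1.2) x.1.2 n z t)) ?_ (by fun_prop)
        refine cp_all_lt (p := fun (x : (((ℕ × ℕ) × ℕ) × ℕ) × ℕ) z => ∀ t < 2 ^ x.2,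
          (Mem (Lf x.1.1.1) x.1.2 x.2 z t ↔ Hs q (cf x.1.1.1.2) x.1.1.2 x.2 z t)) ?_
            (by fun_prop)
        refine cp_all_lt (p := fun (x : ((((ℕ × ℕ) × ℕ) × ℕ) × ℕ) × ℕ) t =>
          (Mem (Lf x.1.1.1.1) x.1.1.2 x.1.2 x.2 t ↔
            Hs q (cf x.1.1.1.1.2) x.1.1.1.2 x.1.2 x.2 t)) ?_ (by fun_prop)
        refine cp_iff ?_ ?_
        · exact ef_cpMem (by fun_prop) (by fun_prop) (by fun_prop) (by fun_prop) (by fun_prop)
        · exact ef_cpHs hq (by fun_prop) (by fun_prop) (by fun_prop) (by fun_prop) (by fun_prop))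
    (fun x => ef_snap (Lf x.1) (fun n z t => Hs q (cf x.1.2) x.2 n z t))
  -- one step of the killed set
  obtain ⟨step, hstepc, estep⟩ := exists_selector
    (r := fun (a : ((ℕ × ℕ) × ℕ) × ℕ) (κ' : ℕ) =>
      (∃ b ∈ Tf a.1.1, b.1 = uf a.1 ∧ b.2.1 = a.2 ∧ κ' = b.2.2) ∨
      ((∀ b ∈ Tf a.1.1, ¬ (b.1 = uf a.1 ∧ b.2.1 = a.2)) ∧ κ' = a.2))
    (by
      refine ComputablePred.to_re ?_
      refine cp_or ?_ ?_
      · refine cp_ex_mem (p := fun (x : (((ℕ × ℕ) × ℕ) × ℕ) × ℕ) (b : ℕ × ℕ × ℕ) =>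
          b.1 = uf x.1.1 ∧ b.2.1 = x.1.2 ∧ x.2 = b.2.2) ?_ (by fun_prop)
        refine cp_and (cp_eq (by fun_prop) (by fun_prop)) (cp_and (cp_eq (by fun_prop)
          (by fun_prop)) (cp_eq (by fun_prop) (by fun_prop)))
      · refine cp_and ?_ (cp_eq (by fun_prop) (by fun_prop))
        refine cp_all_mem (p := fun (x : (((ℕ × ℕ) × ℕ) × ℕ) × ℕ) (b : ℕ × ℕ × ℕ) =>
          ¬ (b.1 = uf x.1.1 ∧ b.2.1 = x.1.2)) ?_ (by fun_prop)
        exact cp_not (cp_and (cp_eq (by fun_prop) (by fun_prop)) (cp_eq (by fun_prop)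
          (by fun_prop))))
    (fun a => by
      by_cases h : ∃ b ∈ Tf a.1.1, b.1 = uf a.1 ∧ b.2.1 = a.2
      · obtain ⟨b, hb, h1, h2⟩ := h
        exact ⟨b.2.2, Or.inl ⟨b, hb, h1, h2, rfl⟩⟩
      · exact ⟨a.2, Or.inr ⟨fun b hb hcon => h ⟨b, hb, hcon⟩, rfl⟩⟩)
  obtain ⟨kap, hkap, ekap0, ekaps⟩ : ∃ kap : (ℕ × ℕ) × ℕ → ℕ, Computable kap ∧
      (∀ p, kap (p, 0) = 0) ∧ ∀ p s, kap (p, s + 1) = step ((p, s), kap (p, s)) := by
    refine ⟨fun x => Nat.rec (motive := fun _ => ℕ) 0 (fun s κ => step ((x.1, s), κ)) x.2,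
      ?_, fun p => rfl, fun p s => rfl⟩
    exact Computable.nat_rec (f := fun x : (ℕ × ℕ) × ℕ => x.2) (g := fun _ => 0)
      (h := fun x (y : ℕ × ℕ) => step ((x.1, y.1), y.2)) (by fun_prop) (by fun_prop) (by
        unfold Computable₂
        fun_prop)
  have hcore : ∀ p : ℕ × ℕ, _ := fun p => ef_core (2 ^ (cf p.2 + 1)) (hf p.2) (tf p.2)
    (p.1 + p.2 + 1) (Lf p) (Tf p) (hVT p) (fun s n z t => Hs q (cf p.2) s n z t)
    (fun s n z t hs i hi => ef_exB_mono _ _ _ (by omega) (hs i hi))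
    (fun s => uf (p, s)) (fun s => (euf (p, s)).1) (fun s => (euf (p, s)).2)
    (fun s => ef_valid hqR hb (cf p.2) (Lf p) (uf (p, s)) s (euf (p, s)).2)
    (fun s => kap (p, s)) (ekap0 p) (fun s => by
      have := estep ((p, s), kap (p, s))
      rw [← ekaps] at this
      exact this)
  refine ⟨fun k l w => ∃ j s, l = Lf (k, j) ∧ w < 2 ^ l ∧ (kap ((k, j), s)).testBit w = true,
    ?_, ?_, ?_⟩
  · refine exN (p := fun (x : ℕ × ℕ × ℕ) j => ∃ s, x.2.1 = Lf (x.1, j) ∧ x.2.2 < 2 ^ x.2.1 ∧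
      (kap ((x.1, j), s)).testBit x.2.2 = true) ?_
    refine exN (p := fun (x : (ℕ × ℕ × ℕ) × ℕ) s => x.1.2.1 = Lf (x.1.1, x.2) ∧
      x.1.2.2 < 2 ^ x.1.2.1 ∧ (kap ((x.1.1, x.2), s)).testBit x.1.2.2 = true) ?_
    refine and (eq (by fun_prop) (by fun_prop)) (and (lt (by fun_prop) (by fun_prop)) ?_)
    exact (ef_cpbit (by fun_prop) (by fun_prop)).to_re
  · intro k
    refine ⟨fun j => Lf (k, j), fun j => (Finset.range (2 ^ Lf (k, j))).filter
      (fun w => ∃ s, (kap ((k, j), s)).testBit w = true), ?_, ?_⟩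
    · intro j
      have hm : k + j + 1 ≤ Lf (k, j) := by
        have := (hVT (k, j)).1
        show k + j + 1 ≤ Lf (k, j)
        have h2 : hf (k, j).2 + ((k, j).1 + (k, j).2 + 1) ≤ Lf (k, j) := this
        simp only at h2
        omega
      refine ⟨hm, ?_⟩
      obtain ⟨hc1, hc2, _⟩ := hcore (k, j)
      obtain ⟨s₀, hs₀⟩ := ef_stab
        (fun s w => (kap ((k, j), s)).testBit w = true ∧ w < 2 ^ Lf (k, j))
        (fun s w hw => ⟨hc2 s w hw.2 hw.1, hw.2⟩) (Finset.range (2 ^ Lf (k, j)))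
      have h3 := hc1 s₀
      rw [ef_cntB] at h3
      refine le_trans (Finset.card_le_card ?_) h3
      intro w hw
      rw [Finset.mem_filter, Finset.mem_range] at hw ⊢
      obtain ⟨hw1, s, hs⟩ := hw
      exact ⟨hw1, (hs₀ w (Finset.mem_range.2 hw1) s ⟨hs, hw1⟩).1⟩
    · intro l w
      constructor
      · rintro ⟨j, s, rfl, hw, hs⟩
        exact ⟨j, rfl, Finset.mem_filter.2 ⟨Finset.mem_range.2 hw, s, hs⟩⟩
      · rintro ⟨j, rfl, hw⟩
        rw [Finset.mem_filter, Finset.mem_range] at hw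
        obtain ⟨hw1, s, hs⟩ := hw
        exact ⟨j, s, rfl, hw1, hs⟩
  · intro k c h τ hτ
    obtain ⟨j, hj⟩ : ∃ j, j = Nat.pair c (Nat.pair h τ) := ⟨_, rfl⟩
    have e1 : cf j = c := by rw [ecf, hj, Nat.unpair_pair]
    have e2 : hf j = h := by rw [ehf, hj, Nat.unpair_pair, Nat.unpair_pair]
    have e3 : tf j = τ := by
      rw [etf, e2, hj, Nat.unpair_pair, Nat.unpair_pair]
      exact Nat.mod_eq_of_lt hτ
    obtain ⟨_, _, s, t, ht, htt, hz⟩ := hcore (k, j)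
    simp only [e1, e2, e3] at htt hz
    have hm : h ≤ Lf (k, j) := by
      have h2 : hf (k, j).2 + ((k, j).1 + (k, j).2 + 1) ≤ Lf (k, j) := (hVT (k, j)).1
      simp only [e2] at h2
      omega
    refine ⟨Lf (k, j), t, hm, ht, htt, fun z hz' hV => ?_⟩
    rcases hz z hz' with hk | hk
    · exact absurd ⟨j, s, rfl, hz', hk⟩ hV
    · by_contra hcon
      push Not at hcon
      have hn : ∀ i, ∃ n, i ≤ Lf (k, j) →
          q (c, i, z / 2 ^ (Lf (k, j) - i), t / 2 ^ (Lf (k, j) - i)) n = true := by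
        intro i
        by_cases hi : i ≤ Lf (k, j)
        · obtain ⟨n, hn⟩ := (hqR (c, i, z / 2 ^ (Lf (k, j) - i), t / 2 ^ (Lf (k, j) - i))).1
            (hcon i hi)
          exact ⟨n, fun _ => hn⟩
        · exact ⟨0, fun h => absurd h hi⟩
      choose g hg using hn
      apply hk ((Finset.range (Lf (k, j) + 1)).sup g)
      intro i hi
      rw [exB_iff]
      exact ⟨g i, Nat.lt_succ_of_le (Finset.le_sup (Finset.mem_range.2 hi)), hg i (by omega)⟩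

end main

end Pool.Agent.Helper926.RK
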