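import Mathlib

set_option autoImplicit false

namespace Pool.Agent.Helper926.RK

open Nat.Partrec (Code)

/-- split `1^e 0 p` into `(e, p)` -/
def spl : List Bool → ℕ × List Bool
  | [] => (0, [])
  | false :: l => (0, l)
  | true :: l => ((spl l).1 + 1, (spl l).2)

theorem spl_primrec : Primrec spl := by
  have h : Primrec fun l : List Bool => (List.recOn l ((0 : ℕ), ([] : List Bool))
      (fun b l IH => bif b then (IH.1 + 1, IH.2) else (0, l)) : ℕ × List Bool) := by
    refine Primrec.list_rec (f := fun l : List Bool => l) (g := fun _ => ((0 : ℕ), ([] : List Bool)))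
      (h := fun _ (x : Bool × List Bool × (ℕ × List Bool)) =>
        bif x.1 then (x.2.2.1 + 1, x.2.2.2) else (0, x.2.1)) Primrec.id (Primrec.const _) ?_
    refine Primrec.cond (Primrec.fst.comp Primrec.snd) ?_ ?_
    · exact (Primrec.succ.comp (Primrec.fst.comp (Primrec.snd.comp (Primrec.snd.comp
        Primrec.snd)))).pair (Primrec.snd.comp (Primrec.snd.comp (Primrec.snd.comp Primrec.snd)))
    · exact (Primrec.const 0).pair (Primrec.fst.comp (Primrec.snd.comp Primrec.snd))
  refine h.of_eq fun l => ?_
  induction l with
  | nil => rfl
  | cons b l ih =>
    cases b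
    · rfl
    · simp only [cond_true, spl]
      rw [← ih]

theorem spl_replicate (e : ℕ) (p : List Bool) :
    spl (List.replicate e true ++ false :: p) = (e, p) := by
  induction e with
  | zero => rfl
  | succ e ih => rw [List.replicate_succ, List.cons_append, spl, ih]

/-- a partial recursive conditional machine that simulates all the others -/
def pU (p y : List Bool) : Part (List Bool) :=
  ((Denumerable.ofNat Code (spl p).1).eval (Encodable.encode ((spl p).2, y))).map fun n =>
    ((Encodable.decode n : Option (List Bool)).getD [])

theorem pU_partrec : Partrec₂ pU := by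
  unfold pU
  refine Partrec.map (f := fun x : List Bool × List Bool =>
    (Denumerable.ofNat Code (spl x.1).1).eval (Encodable.encode ((spl x.1).2, x.2)))
    (g := fun _ n => ((Encodable.decode n : Option (List Bool)).getD [])) ?_ ?_
  · have h1 : Computable fun x : List Bool × List Bool => Denumerable.ofNat Code (spl x.1).1 :=
      (Computable.ofNat Code).comp (Computable.fst.comp (spl_primrec.to_comp.comp Computable.fst))
    have h2 : Computable fun x : List Bool × List Bool =>
        Encodable.encode ((spl x.1).2, x.2) :=
      Computable.encode.comp ((Computable.snd.comp (spl_primrec.to_comp.comp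
        Computable.fst)).pair Computable.snd)
    exact Nat.Partrec.Code.eval_part.comp h1 h2
  · exact Computable.option_getD (Computable.decode.comp Computable.snd) (Computable.const [])

theorem pU_sim {M : List Bool → List Bool →. List Bool} (hM : Partrec₂ M) :
    ∃ c : ℕ, ∀ p y x, x ∈ M p y → ∃ q : List Bool, q.length ≤ p.length + c ∧ x ∈ pU q y := by
  have h1 : Nat.Partrec fun n => Part.bind (Encodable.decode (α := List Bool × List Bool) n)
    fun a => ((fun x : List Bool × List Bool => M x.1 x.2) a).map Encodable.encode := hM
  obtain ⟨c, hc⟩ := Nat.Partrec.Code.exists_code.1 h1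
  refine ⟨Encodable.encode c + 1, fun p y x hx => ?_⟩
  refine ⟨List.replicate (Encodable.encode c) true ++ false :: p, ?_, ?_⟩
  · rw [List.length_append, List.length_replicate, List.length_cons]
    omega
  · unfold pU
    rw [spl_replicate]
    simp only [Denumerable.ofNat_encode]
    rw [hc]
    simp only [Encodable.encodek, Part.coe_some, Part.bind_some]
    rw [Part.mem_map_iff]
    exact ⟨Encodable.encode x, Part.mem_map _ hx, by simp⟩

end Pool.Agent.Helper926.RK
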