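import Mathlib
import Pool.Agent.Helper926.RK.Defs

set_option autoImplicit false

namespace Pool.Agent.Helper926.RK

open Finset

/-! ### Coding of strings by numbers -/

/-- the number whose binary digits (most significant first) are the string -/
def val (l : List Bool) : ℕ := l.foldl (fun a b => 2 * a + b.toNat) 0

/-- the number coding the first `n` bits of `A` -/
def code (A : ℕ → Bool) (n : ℕ) : ℕ := val (pre A n)

/-- the string of length `n` with value `v` -/
def toStr (n v : ℕ) : List Bool :=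
  (List.range n).map fun i => decide (v / 2 ^ (n - 1 - i) % 2 = 1)

theorem pre_succ (A : ℕ → Bool) (n : ℕ) : pre A (n + 1) = pre A n ++ [A n] := by
  simp [pre, List.range_succ]

theorem val_append (l : List Bool) (b : Bool) : val (l ++ [b]) = 2 * val l + b.toNat := by
  simp [val, List.foldl_append]

theorem code_succ (A : ℕ → Bool) (n : ℕ) : code A (n + 1) = 2 * code A n + (A n).toNat := by
  rw [code, pre_succ, val_append]; rfl

theorem j7771_toNat (b : Bool) : b.toNat < 2 := by cases b <;> simp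

theorem code_lt (A : ℕ → Bool) (n : ℕ) : code A n < 2 ^ n := by
  induction n with
  | zero => simp [code, pre, val]
  | succ n ih =>
    rw [code_succ, pow_succ]
    have := j7771_toNat (A n)
    omega

theorem j7771_div (A : ℕ → Bool) (n d : ℕ) : code A (n + d) / 2 ^ d = code A n := by
  induction d with
  | zero => simp
  | succ d ih =>
    have h1 : code A (n + d + 1) / 2 = code A (n + d) := by
      rw [code_succ]
      have := j7771_toNat (A (n + d))
      omega
    rw [← add_assoc, pow_succ', ← Nat.div_div_eq_div_mul, h1, ih]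

theorem code_div (A : ℕ → Bool) (n m : ℕ) (h : n ≤ m) : code A m / 2 ^ (m - n) = code A n := by
  obtain ⟨d, rfl⟩ := Nat.exists_eq_add_of_le h
  rw [Nat.add_sub_cancel_left]
  exact j7771_div A n d

theorem j7771_bit (A : ℕ → Bool) (n i : ℕ) (hi : i < n) :
    decide (code A n / 2 ^ (n - 1 - i) % 2 = 1) = A i := by
  have h1 : n - 1 - i = n - (i + 1) := by omega
  rw [h1, code_div A (i + 1) n (by omega), code_succ]
  cases A i <;> simp <;> omega

theorem toStr_code (A : ℕ → Bool) (n : ℕ) : toStr n (code A n) = pre A n := by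
  unfold toStr pre
  apply List.map_congr_left
  intro i hi
  exact j7771_bit A n i (List.mem_range.1 hi)

theorem length_pre (A : ℕ → Bool) (n : ℕ) : (pre A n).length = n := by
  simp [pre]

theorem j7771_congr (A B : ℕ → Bool) (n : ℕ) (h : ∀ i < n, A i = B i) : code A n = code B n := by
  unfold code pre
  congr 1
  apply List.map_congr_left
  intro i hi
  exact h i (List.mem_range.1 hi)

/-- real with given code -/
def j7771_B (n t : ℕ) : ℕ → Bool := fun i => decide (t / 2 ^ (n - 1 - i) % 2 = 1)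

theorem j7771_Bcode (n t : ℕ) (ht : t < 2 ^ n) (j : ℕ) (hj : j ≤ n) :
    code (j7771_B n t) j = t / 2 ^ (n - j) := by
  induction j with
  | zero => simp [code, pre, val, Nat.div_eq_of_lt ht]
  | succ j ih =>
    rw [code_succ, ih (by omega)]
    have h1 : n - j = (n - (j + 1)) + 1 := by omega
    rw [h1, pow_succ, ← Nat.div_div_eq_div_mul]
    have h2 : (j7771_B n t j).toNat = t / 2 ^ (n - (j + 1)) % 2 := by
      unfold j7771_B
      have h3 : n - 1 - j = n - (j + 1) := by omega
      rw [h3]
      rcases Nat.mod_two_eq_zero_or_one (t / 2 ^ (n - (j + 1))) with h | h <;> simp [h]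
    rw [h2]
    exact Nat.div_add_mod _ _

/-- every number `< 2^n` is the code of the first `n` bits of some real, extending a given one -/
theorem exists_code (A : ℕ → Bool) (h n t : ℕ) (hn : h ≤ n) (ht : t < 2 ^ n)
    (htau : t / 2 ^ (n - h) = code A h) :
    ∃ B : ℕ → Bool, code B n = t ∧ ∀ i < h, B i = A i := by
  refine ⟨j7771_B n t, ?_, ?_⟩
  · rw [j7771_Bcode n t ht n le_rfl]; simp
  · intro i hi
    have h1 : code (j7771_B n t) h = code A h := by
      rw [j7771_Bcode n t ht h hn, htau]
    rw [← j7771_bit (j7771_B n t) h i hi, ← j7771_bit A h i hi, h1]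

theorem j7771_coin (b : Bool) : (PMF.uniformOfFintype Bool).toMeasure {b} = (2⁻¹ : ENNReal) := by
  rw [PMF.toMeasure_apply_singleton _ _ (MeasurableSet.singleton b)]
  simp

/-- the measure of a cylinder -/
theorem coin_cylinder (n v : ℕ) (hv : v < 2 ^ n) :
    coin {Z | code Z n = v} = (2⁻¹ : ENNReal) ^ n := by
  have h1 : {Z : ℕ → Bool | code Z n = v} =
      Set.pi (Finset.range n : Finset ℕ) (fun i => {j7771_B n v i}) := by
    ext Z
    simp only [Set.mem_ofPred_eq, Set.mem_pi, Finset.mem_coe, Finset.mem_range,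
      Set.mem_singleton_iff]
    constructor
    · intro h i hi
      rw [← j7771_bit Z n i hi, h]; rfl
    · intro h
      rw [j7771_congr Z (j7771_B n v) n h, j7771_Bcode n v hv n le_rfl]
      simp
  rw [h1, coin, MeasureTheory.Measure.infinitePi_pi _ (fun i _ => MeasurableSet.singleton _)]
  simp only [j7771_coin]
  simp

theorem coin_small (k : ℕ) (L : ℕ → ℕ) (S : ℕ → Finset ℕ)
    (h : ∀ j, k + j + 1 ≤ L j ∧ (S j).card ≤ 2 ^ (L j - (k + j + 1))) :
    coin {Z | ∃ j, code Z (L j) ∈ S j} ≤ (2⁻¹ : ENNReal) ^ k := by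
  have h0 : ∀ j v, coin {Z | code Z (L j) = v} ≤ (2⁻¹ : ENNReal) ^ (L j) := by
    intro j v
    by_cases hv : v < 2 ^ (L j)
    · rw [coin_cylinder _ _ hv]
    · have : {Z : ℕ → Bool | code Z (L j) = v} = ∅ := by
        ext Z
        simp only [Set.mem_ofPred_eq, Set.mem_empty_iff_false, iff_false]
        intro hz
        exact hv (hz ▸ code_lt Z (L j))
      rw [this]; simp
  have h1 : ∀ j, coin {Z | code Z (L j) ∈ S j} ≤ (2⁻¹ : ENNReal) ^ (k + j + 1) := by
    intro j
    have e : {Z : ℕ → Bool | code Z (L j) ∈ S j} = ⋃ v ∈ S j, {Z | code Z (L j) = v} := by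
      ext Z; simp
    rw [e]
    calc coin (⋃ v ∈ S j, {Z | code Z (L j) = v})
        ≤ ∑ v ∈ S j, coin {Z | code Z (L j) = v} := MeasureTheory.measure_biUnion_finset_le _ _
      _ ≤ ∑ _v ∈ S j, (2⁻¹ : ENNReal) ^ (L j) := Finset.sum_le_sum fun v _ => h0 j v
      _ = (S j).card * (2⁻¹ : ENNReal) ^ (L j) := by rw [Finset.sum_const, nsmul_eq_mul]
      _ ≤ (2 : ENNReal) ^ (L j - (k + j + 1)) * (2⁻¹ : ENNReal) ^ (L j) := by
          gcongr
          exact_mod_cast (h j).2
      _ = (2⁻¹ : ENNReal) ^ (k + j + 1) := by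
          have e2 : L j = (L j - (k + j + 1)) + (k + j + 1) := by have := (h j).1; omega
          conv_lhs => rw [e2]
          rw [Nat.add_sub_cancel, pow_add, ← mul_assoc, ← mul_pow,
            ENNReal.mul_inv_cancel (by norm_num) (by norm_num), one_pow, one_mul]
  have e : {Z : ℕ → Bool | ∃ j, code Z (L j) ∈ S j} = ⋃ j, {Z | code Z (L j) ∈ S j} := by
    ext Z; simp
  rw [e]
  calc coin (⋃ j, {Z | code Z (L j) ∈ S j})
      ≤ ∑' j, coin {Z | code Z (L j) ∈ S j} := MeasureTheory.measure_iUnion_le _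
    _ ≤ ∑' j : ℕ, (2⁻¹ : ENNReal) ^ (k + j + 1) := ENNReal.tsum_le_tsum h1
    _ = ∑' j : ℕ, (2⁻¹ : ENNReal) ^ k * 2⁻¹ * (2⁻¹ : ENNReal) ^ j := by
        congr 1; funext j; ring
    _ = (2⁻¹ : ENNReal) ^ k * 2⁻¹ * (1 - 2⁻¹)⁻¹ := by
        rw [ENNReal.tsum_mul_left, ENNReal.tsum_geometric]
    _ = (2⁻¹ : ENNReal) ^ k := by
        rw [ENNReal.one_sub_inv_two, inv_inv, mul_assoc,
          ENNReal.inv_mul_cancel (by norm_num) (by norm_num), mul_one]

end Pool.Agent.Helper926.RK
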