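import Mathlib

set_option autoImplicit false

namespace Pool.Agent.Helper926.RK

open Finset

structure HS (D : ℕ) where
  H : ℕ → ℕ → Finset ℕ
  card_le : ∀ n z, (H n z).card ≤ D
  closed : ∀ n z t, t ∈ H (n + 1) z → t / 2 ∈ H n (z / 2)

variable {D : ℕ}

def HS.le (H H' : HS D) : Prop := ∀ n z, H.H n z ⊆ H'.H n z

def Alive (L : ℕ) (κ : Finset ℕ) (n z : ℕ) : Prop :=
  ∃ w, w < 2 ^ L ∧ w / 2 ^ (L - n) = z ∧ w ∉ κ

def Good (L h τ : ℕ) (H : HS D) (κ : Finset ℕ) : Prop :=
  ∀ t, t < 2 ^ L → t / 2 ^ (L - h) = τ → ∃ z, z < 2 ^ L ∧ z ∉ κ ∧ t ∈ H.H L z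

inductive Forces (L h τ : ℕ) (G : HS D → Finset ℕ → Prop) : ℕ → HS D → Finset ℕ → Prop
  | done {b : ℕ} {H : HS D} {κ : Finset ℕ} : G H κ → Forces L h τ G b H κ
  | step {b b' : ℕ} {H : HS D} {κ : Finset ℕ} (S : Finset ℕ) (hS : S ⊆ range (2 ^ L))
      (hb : S.card + b' ≤ b) (hng : ¬ Good L h τ H (κ ∪ S))
      (hn : ∀ H', HS.le H H' → Good L h τ H' (κ ∪ S) → Forces L h τ G b' H' (κ ∪ S)) :
      Forces L h τ G b H κ

/-! ### Basic facts -/

theorem HS.le_rfl' (H : HS D) : HS.le H H := fun _ _ => Finset.Subset.refl _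

theorem HS.le_trans' {H H' H'' : HS D} (h1 : HS.le H H') (h2 : HS.le H' H'') : HS.le H H'' :=
  fun n z => (h1 n z).trans (h2 n z)

theorem div_pow_div_pow (x a b : ℕ) : x / 2 ^ a / 2 ^ b = x / 2 ^ (a + b) := by
  rw [Nat.div_div_eq_div_mul, pow_add]

theorem alive_anti {L n z : ℕ} {κ κ' : Finset ℕ} (h : κ ⊆ κ') (ha : Alive L κ' n z) :
    Alive L κ n z := by
  obtain ⟨w, h1, h2, h3⟩ := ha
  exact ⟨w, h1, h2, fun h4 => h3 (h h4)⟩

theorem alive_up {L n m z : ℕ} {κ : Finset ℕ} (hm : m ≤ n) (hn : n ≤ L) (ha : Alive L κ n z) :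
    Alive L κ m (z / 2 ^ (n - m)) := by
  obtain ⟨w, h1, rfl, h3⟩ := ha
  refine ⟨w, h1, ?_, h3⟩
  rw [div_pow_div_pow]
  congr 2
  omega

theorem alive_lt {L n z : ℕ} {κ : Finset ℕ} (hn : n ≤ L) (ha : Alive L κ n z) : z < 2 ^ n := by
  obtain ⟨w, h1, rfl, -⟩ := ha
  rw [Nat.div_lt_iff_lt_mul (by positivity), ← pow_add]
  rwa [show n + (L - n) = L by omega]

theorem closed_up (H : HS D) {n z t : ℕ} (k : ℕ) (h : t ∈ H.H (n + k) z) :
    t / 2 ^ k ∈ H.H n (z / 2 ^ k) := by
  induction k generalizing z t with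
  | zero => simpa using h
  | succ k ih =>
    have h1 := H.closed (n + k) z t h
    have h2 := ih h1
    rw [Nat.div_div_eq_div_mul, Nat.div_div_eq_div_mul, ← pow_succ'] at h2
    exact h2

theorem closed_up' (H : HS D) {n m z t : ℕ} (hm : m ≤ n) (h : t ∈ H.H n z) :
    t / 2 ^ (n - m) ∈ H.H m (z / 2 ^ (n - m)) := by
  apply closed_up H (n - m)
  rwa [show m + (n - m) = n by omega]

/-- alive hosts of the demand `t` of level `n` -/
noncomputable def hosts (L : ℕ) (H : HS D) (κ : Finset ℕ) (n t : ℕ) : Finset ℕ :=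
  open Classical in (range (2 ^ n)).filter fun z => Alive L κ n z ∧ t ∈ H.H n z

theorem mem_hosts {L : ℕ} {H : HS D} {κ : Finset ℕ} {n t z : ℕ} (hn : n ≤ L) :
    z ∈ hosts L H κ n t ↔ Alive L κ n z ∧ t ∈ H.H n z := by
  unfold hosts
  simp only [mem_filter, mem_range]
  exact ⟨fun h => h.2, fun h => ⟨alive_lt hn h.1, h⟩⟩

/-- nodes of level `n + k` below the set `X` of nodes -/
theorem card_desc (N k : ℕ) (X : Finset ℕ) :
    ((range N).filter fun y => y / 2 ^ k ∈ X).card ≤ X.card * 2 ^ k := by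
  have h : ((range N).filter fun y => y / 2 ^ k ∈ X).card ≤ (X ×ˢ range (2 ^ k)).card := by
    apply Finset.card_le_card_of_injOn (fun y => (y / 2 ^ k, y % 2 ^ k))
    · intro y hy
      rw [Finset.mem_coe, mem_filter] at hy
      simp only [coe_product, Set.mem_prod, mem_coe, mem_range]
      exact ⟨hy.2, Nat.mod_lt _ (by positivity)⟩
    · intro y _ y' _ hyy
      simp only [Prod.mk.injEq] at hyy
      rw [← Nat.div_add_mod y (2 ^ k), ← Nat.div_add_mod y' (2 ^ k), hyy.1, hyy.2]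
  rwa [card_product, card_range] at h

/-- extensions of `e` by `k` bits -/
def ext (k e : ℕ) : Finset ℕ := Ico (e * 2 ^ k) ((e + 1) * 2 ^ k)

theorem mem_ext {k e x : ℕ} : x ∈ ext k e ↔ x / 2 ^ k = e := by
  unfold ext
  rw [mem_Ico]
  constructor
  · rintro ⟨h1, h2⟩
    apply le_antisymm
    · exact Nat.lt_succ_iff.1 ((Nat.div_lt_iff_lt_mul (by positivity)).2 h2)
    · exact (Nat.le_div_iff_mul_le (by positivity)).2 h1
  · rintro rfl
    exact ⟨Nat.div_mul_le_self _ _, Nat.lt_mul_of_div_lt (Nat.lt_succ_self _) (by positivity)⟩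

theorem card_ext (k e : ℕ) : (ext k e).card = 2 ^ k := by
  unfold ext
  rw [Nat.card_Ico, add_mul, one_mul, Nat.add_sub_cancel_left]

/-- double counting -/
theorem sum_hosts_le (H : HS D) (n : ℕ) (Z F : Finset ℕ) :
    ∑ x ∈ F, (Z.filter fun z => x ∈ H.H n z).card ≤ Z.card * D := by
  have h1 : ∑ x ∈ F, (Z.filter fun z => x ∈ H.H n z).card =
      ∑ z ∈ Z, (F.filter fun x => x ∈ H.H n z).card := by
    simp only [card_filter]
    exact Finset.sum_comm
  rw [h1]
  calc ∑ z ∈ Z, (F.filter fun x => x ∈ H.H n z).card ≤ ∑ _z ∈ Z, D := by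
        apply Finset.sum_le_sum
        intro z _
        refine le_trans (Finset.card_le_card ?_) (H.card_le n z)
        intro x hx
        exact (mem_filter.1 hx).2
    _ = Z.card * D := by simp

theorem card_some_host_le (H : HS D) (n : ℕ) (Z F : Finset ℕ) :
    (F.filter fun x => ∃ z ∈ Z, x ∈ H.H n z).card ≤ Z.card * D := by
  refine le_trans ?_ (sum_hosts_le H n Z F)
  rw [card_filter]
  apply Finset.sum_le_sum
  intro x _
  split_ifs with h
  · obtain ⟨z, hz, hx⟩ := h
    exact Finset.card_pos.2 ⟨z, mem_filter.2 ⟨hz, hx⟩⟩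
  · exact Nat.zero_le _

theorem card_many_hosts_le (H : HS D) (n h0 : ℕ) (Z F : Finset ℕ) :
    (F.filter fun x => h0 < (Z.filter fun z => x ∈ H.H n z).card).card * h0 ≤ Z.card * D := by
  refine le_trans ?_ (sum_hosts_le H n Z F)
  rw [card_filter, Finset.sum_mul]
  apply Finset.sum_le_sum
  intro x _
  split_ifs with h
  · omega
  · simp

/-! ### Forcing -/

theorem Forces.mono {L h τ : ℕ} {G G' : HS D → Finset ℕ → Prop} {b b' : ℕ} {H : HS D}
    {κ : Finset ℕ} (hf : Forces L h τ G b H κ) (hb : b ≤ b')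
    (hG : ∀ H' κ', G H' κ' → G' H' κ') : Forces L h τ G' b' H κ := by
  induction hf generalizing b' with
  | done hg => exact Forces.done (hG _ _ hg)
  | step S hS hb1 hng _ ih =>
    exact Forces.step S hS (le_trans hb1 hb) hng (fun H' h1 h2 => ih H' h1 h2 le_rfl)

theorem Forces.trans {L h τ : ℕ} {G G' : HS D → Finset ℕ → Prop} {b b2 : ℕ} {H : HS D}
    {κ : Finset ℕ} (hf : Forces L h τ G b H κ) (hgood : Good L h τ H κ)
    (h2 : ∀ H' κ', HS.le H H' → κ ⊆ κ' → Good L h τ H' κ' → G H' κ' →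
      Forces L h τ G' b2 H' κ') : Forces L h τ G' (b + b2) H κ := by
  induction hf with
  | done hg =>
    exact (h2 _ _ (HS.le_rfl' _) (Finset.Subset.refl _) hgood hg).mono (by omega)
      (fun _ _ h => h)
  | step S hS hb1 hng _ ih =>
    rename_i b b' H κ hn
    refine Forces.step (b' := b' + b2) S hS (by omega) hng (fun H' h1 h3 => ?_)
    refine ih H' h1 h3 h3 (fun H'' κ'' h4 h5 h6 h7 => ?_)
    exact h2 _ _ (HS.le_trans' h1 h4) (Finset.subset_union_left.trans h5) h6 h7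

/-- Killing all hosts of the demand `e` of level `n`. -/
theorem Forces.kill {L h τ n e b' : ℕ} {G : HS D → Finset ℕ → Prop} {H : HS D}
    {κ : Finset ℕ} (hn : n ≤ L) (hh : h ≤ n) (he : e < 2 ^ n) (heτ : e / 2 ^ (n - h) = τ)
    (S : Finset ℕ) (hSdef : S = (range (2 ^ L)).filter fun w => w / 2 ^ (L - n) ∈ hosts L H κ n e)
    (hnext : ∀ H', HS.le H H' → Good L h τ H' (κ ∪ S) →
      (∃ z, Alive L (κ ∪ S) n z ∧ e ∈ H'.H n z ∧ e ∉ H.H n z) →
      Forces L h τ G b' H' (κ ∪ S)) :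
    Forces L h τ G ((hosts L H κ n e).card * 2 ^ (L - n) + b') H κ := by
  have hSc : S.card ≤ (hosts L H κ n e).card * 2 ^ (L - n) := by
    rw [hSdef]; exact card_desc _ _ _
  have hel : e * 2 ^ (L - n) < 2 ^ L := by
    calc e * 2 ^ (L - n) < 2 ^ n * 2 ^ (L - n) := Nat.mul_lt_mul_of_pos_right he (by positivity)
      _ = 2 ^ L := by rw [← pow_add]; congr 1; omega
  have het : e * 2 ^ (L - n) / 2 ^ (L - h) = τ := by
    have : L - h = (L - n) + (n - h) := by omega
    rw [this, ← div_pow_div_pow, Nat.mul_div_cancel _ (by positivity), heτ]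
  have hediv : e * 2 ^ (L - n) / 2 ^ (L - n) = e := Nat.mul_div_cancel _ (by positivity)
  have key : ∀ z, z < 2 ^ L → z ∉ κ ∪ S → e ∉ H.H n (z / 2 ^ (L - n)) := by
    intro z hz hzS heH
    apply hzS
    rw [mem_union]
    by_cases hzκ : z ∈ κ
    · exact Or.inl hzκ
    · right
      rw [hSdef, mem_filter, mem_range]
      exact ⟨hz, (mem_hosts hn).2 ⟨⟨z, hz, rfl, hzκ⟩, heH⟩⟩
  refine Forces.step S ?_ (b' := b') (by omega) ?_ ?_
  · rw [hSdef]; exact filter_subset _ _
  · intro hg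
    obtain ⟨z, hz, hzS, hz3⟩ := hg _ hel het
    have h1 := closed_up' H hn hz3
    rw [hediv] at h1
    exact key z hz hzS h1
  · intro H' hle hg
    refine hnext H' hle hg ?_
    obtain ⟨z, hz, hzS, hz3⟩ := hg _ hel het
    have h1 := closed_up' H' hn hz3
    rw [hediv] at h1
    exact ⟨z / 2 ^ (L - n), ⟨z, hz, rfl, hzS⟩, h1, key z hz hzS⟩

/-- The main claim with `j` used slots and given parameters. -/
def ClaimBody (D j q N l' : ℕ) : Prop :=
  ∀ (L h τ l f : ℕ) (H : HS D) (κ : Finset ℕ), l + l' ≤ L → h ≤ l → f < 2 ^ l →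
    f / 2 ^ (l - h) = τ → Good L h τ H κ → (hosts L H κ l f).card ≤ N →
    (∀ n z, l ≤ n → n ≤ l + l' → Alive L κ n z → z / 2 ^ (n - l) ∈ hosts L H κ l f →
      j ≤ (H.H n z).card) →
    Forces L h τ (fun H' κ' => ∃ z, Alive L κ' l z ∧ f ∈ H'.H l z ∧ z ∉ hosts L H κ l f)
      ((hosts L H κ l f).card * 2 ^ (L - l - q)) H κ

/-- The main claim with `j` used slots. -/
def Claim (D j : ℕ) : Prop := ∀ q N : ℕ, ∃ l' : ℕ, q ≤ l' ∧ ClaimBody D j q N l'

/-- A subdemand with few hosts. -/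
theorem exists_few_hosts {L l m f : ℕ} {H : HS D} {κ : Finset ℕ} (hL : l + m ≤ L) :
    ∃ e, e / 2 ^ m = f ∧
      (hosts L H κ (l + m) e).card ≤ (hosts L H κ l f).card * D := by
  by_contra hcon
  push Not at hcon
  set X := hosts L H κ l f with hX
  set Z := (range (2 ^ (l + m))).filter fun y => y / 2 ^ m ∈ X with hZ
  have hsum := sum_hosts_le H (l + m) Z (ext m f)
  have hZc : Z.card ≤ X.card * 2 ^ m := card_desc _ _ _
  have hsub : ∀ e ∈ ext m f, hosts L H κ (l + m) e ⊆ Z.filter fun z => e ∈ H.H (l + m) z := by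
    intro e he z hz
    rw [mem_hosts hL] at hz
    have he' := mem_ext.1 he
    rw [mem_filter, hZ, mem_filter, mem_range]
    refine ⟨⟨alive_lt hL hz.1, ?_⟩, hz.2⟩
    rw [hX, mem_hosts (by omega)]
    have h1 := alive_up (m := l) (by omega) hL hz.1
    have h2 := closed_up' H (m := l) (by omega) hz.2
    rw [show l + m - l = m by omega] at h1 h2
    rw [he'] at h2
    exact ⟨h1, h2⟩
  have h3 : ∑ e ∈ ext m f, (X.card * D + 1) ≤
      ∑ e ∈ ext m f, (Z.filter fun z => e ∈ H.H (l + m) z).card := by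
    apply Finset.sum_le_sum
    intro e he
    exact le_trans (hcon e (mem_ext.1 he)) (Finset.card_le_card (hsub e he))
  rw [Finset.sum_const, card_ext, smul_eq_mul] at h3
  have h4 : Z.card * D ≤ X.card * 2 ^ m * D := Nat.mul_le_mul_right _ hZc
  have h5 : 0 < 2 ^ m := by positivity
  nlinarith

theorem claim_base (D : ℕ) : Claim D D := by
  intro q N
  refine ⟨q + D, by omega, ?_⟩
  intro L h τ l f H κ hL hh hf hfτ hgood hN hused
  obtain ⟨e, hef, hec⟩ := exists_few_hosts (D := D) (L := L) (l := l) (m := q + D) (f := f)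
    (H := H) (κ := κ) hL
  set X := hosts L H κ l f with hX
  have he : e < 2 ^ (l + (q + D)) := by
    rw [pow_add]
    rw [← Nat.div_lt_iff_lt_mul (by positivity), hef]
    exact hf
  have heτ : e / 2 ^ (l + (q + D) - h) = τ := by
    rw [show l + (q + D) - h = (q + D) + (l - h) by omega, ← div_pow_div_pow, hef, hfτ]
  have hk := Forces.kill (D := D) (L := L) (h := h) (τ := τ) (n := l + (q + D)) (e := e)
    (b' := 0) (G := fun H' κ' => ∃ z, Alive L κ' l z ∧ f ∈ H'.H l z ∧ z ∉ X) (H := H) (κ := κ)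
    hL (by omega) he heτ _ rfl ?_
  · refine hk.mono ?_ (fun _ _ h => h)
    rw [add_zero]
    calc (hosts L H κ (l + (q + D)) e).card * 2 ^ (L - (l + (q + D)))
        ≤ (X.card * D) * 2 ^ (L - (l + (q + D))) := Nat.mul_le_mul_right _ hec
      _ ≤ (X.card * 2 ^ D) * 2 ^ (L - (l + (q + D))) :=
          Nat.mul_le_mul_right _ (Nat.mul_le_mul_left _ (Nat.lt_two_pow_self).le)
      _ = X.card * 2 ^ (L - l - q) := by
          rw [mul_assoc, ← pow_add]
          congr 2
          omega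
  · rintro H' hle hg ⟨z, hz1, hz2, hz3⟩
    apply Forces.done
    have hz1' : Alive L κ (l + (q + D)) z := alive_anti Finset.subset_union_left hz1
    have h1 := alive_up (m := l) (by omega) hL hz1
    have h2 := closed_up' H' (m := l) (by omega) hz2
    rw [show l + (q + D) - l = q + D by omega] at h1 h2
    rw [hef] at h2
    refine ⟨_, h1, h2, fun hzX => ?_⟩
    have h3 : D ≤ (H.H (l + (q + D)) z).card := by
      apply hused _ _ (by omega) le_rfl hz1'
      rwa [show l + (q + D) - l = q + D by omega]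
    have h4 : H.H (l + (q + D)) z = H'.H (l + (q + D)) z :=
      Finset.eq_of_subset_of_card_le (hle _ _) (le_trans (H'.card_le _ _) h3)
    rw [← h4] at hz2
    exact hz3 hz2

/-! ### The inductive step -/

/-- nodes of level `n` below `X` -/
def below (l : ℕ) (X : Finset ℕ) (n : ℕ) : Finset ℕ :=
  (range (2 ^ n)).filter fun y => y / 2 ^ (n - l) ∈ X

theorem mem_below {l n z : ℕ} {X : Finset ℕ} :
    z ∈ below l X n ↔ z < 2 ^ n ∧ z / 2 ^ (n - l) ∈ X := by
  unfold below
  rw [mem_filter, mem_range]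

theorem card_below (l n : ℕ) (X : Finset ℕ) : (below l X n).card ≤ X.card * 2 ^ (n - l) :=
  card_desc _ _ _

/-- marked nodes: nodes below `X` hosting an extension of `e` -/
noncomputable def Mk (l n0 e : ℕ) (X : Finset ℕ) (H : HS D) (n : ℕ) : Finset ℕ :=
  open Classical in (below l X n).filter fun z => ∃ t ∈ H.H n z, t / 2 ^ (n - n0) = e

theorem mem_Mk {l n0 e n z : ℕ} {X : Finset ℕ} {H : HS D} :
    z ∈ Mk l n0 e X H n ↔ z ∈ below l X n ∧ ∃ t ∈ H.H n z, t / 2 ^ (n - n0) = e := by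
  unfold Mk
  rw [mem_filter]

theorem Mk_mono {l n0 e n : ℕ} {X : Finset ℕ} {H H' : HS D} (hle : HS.le H H') :
    Mk l n0 e X H n ⊆ Mk l n0 e X H' n := by
  intro z hz
  rw [mem_Mk] at hz ⊢
  obtain ⟨h1, t, h2, h3⟩ := hz
  exact ⟨h1, t, hle _ _ h2, h3⟩

theorem Mk_up {l n0 e n k z : ℕ} {X : Finset ℕ} {H : HS D} (hl : l ≤ n0) (hn : n0 ≤ n)
    (hz : z ∈ Mk l n0 e X H (n + k)) : z / 2 ^ k ∈ Mk l n0 e X H n := by
  rw [mem_Mk, mem_below] at hz ⊢
  obtain ⟨⟨h0, h1⟩, t, h2, h3⟩ := hz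
  refine ⟨⟨?_, ?_⟩, t / 2 ^ k, closed_up H k h2, ?_⟩
  · rw [Nat.div_lt_iff_lt_mul (by positivity), ← pow_add]
    exact h0
  · rwa [div_pow_div_pow, show k + (n - l) = n + k - l by omega]
  · rwa [div_pow_div_pow, show k + (n - n0) = n + k - n0 by omega]

theorem card_Mk_le {l n0 e n : ℕ} {X : Finset ℕ} {H : HS D} :
    (Mk l n0 e X H n).card ≤ X.card * 2 ^ (n - l) := by
  refine le_trans (Finset.card_le_card ?_) (card_below l n X)
  unfold Mk
  exact filter_subset _ _

theorem card_Mk_le_mul {l n0 e n k : ℕ} {X : Finset ℕ} {H : HS D} (hl : l ≤ n0) (hn : n0 ≤ n) :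
    (Mk l n0 e X H (n + k)).card ≤ (Mk l n0 e X H n).card * 2 ^ k := by
  refine le_trans (Finset.card_le_card ?_) (card_desc (2 ^ (n + k)) k (Mk l n0 e X H n))
  intro z hz
  rw [mem_filter, mem_range]
  exact ⟨(mem_below.1 (mem_Mk.1 hz).1).1, Mk_up hl hn hz⟩

/-- marked nodes with an unmarked descendant `k` levels below -/
noncomputable def Ex (l n0 e : ℕ) (X : Finset ℕ) (H : HS D) (n k : ℕ) : Finset ℕ :=
  open Classical in (Mk l n0 e X H n).filter fun z =>
    ∃ y, y < 2 ^ (n + k) ∧ y / 2 ^ k = z ∧ y ∉ Mk l n0 e X H (n + k)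

theorem card_Ex {l n0 e n k : ℕ} {X : Finset ℕ} {H : HS D} (hl : l ≤ n0) (hn : n0 ≤ n) :
    (Mk l n0 e X H (n + k)).card + (Ex l n0 e X H n k).card ≤ (Mk l n0 e X H n).card * 2 ^ k := by
  set A := (range (2 ^ (n + k))).filter fun y => y / 2 ^ k ∈ Mk l n0 e X H n with hA
  have h1 : A.card ≤ (Mk l n0 e X H n).card * 2 ^ k := card_desc _ _ _
  have h2 : Mk l n0 e X H (n + k) ⊆ A := by
    intro z hz
    rw [hA, mem_filter, mem_range]
    exact ⟨(mem_below.1 (mem_Mk.1 hz).1).1, Mk_up hl hn hz⟩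
  have h3 : Ex l n0 e X H n k ⊆ (A \ Mk l n0 e X H (n + k)).image fun y => y / 2 ^ k := by
    intro z hz
    unfold Ex at hz
    rw [mem_filter] at hz
    obtain ⟨h4, y, h5, h6, h7⟩ := hz
    rw [mem_image]
    refine ⟨y, ?_, h6⟩
    rw [mem_sdiff, hA, mem_filter, mem_range, h6]
    exact ⟨⟨h5, h4⟩, h7⟩
  have h4 : (Ex l n0 e X H n k).card ≤ (A \ Mk l n0 e X H (n + k)).card :=
    le_trans (Finset.card_le_card h3) Finset.card_image_le
  have h5 := Finset.card_sdiff_add_card_eq_card h2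
  omega

def GG (L l f : ℕ) (X : Finset ℕ) (H' : HS D) (κ' : Finset ℕ) : Prop :=
  ∃ z, Alive L κ' l z ∧ f ∈ H'.H l z ∧ z ∉ X

/-- existence of a demand all whose hosts are marked together with all descendants -/
theorem exists_good_demand {N l m e h0 lam L1 : ℕ} (hD : 1 ≤ D) (hN : 1 ≤ N) {X : Finset ℕ}
    (hX : X.card ≤ N) (hh0 : h0 = 4 * D * N * 2 ^ m) (hlam : l + m ≤ lam) {H1 H' : HS D}
    (hle : HS.le H1 H')
    (hdrop : 4 * D * ((Mk l (l + m) e X H1 lam).card * 2 ^ L1) ≤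
      4 * D * (Mk l (l + m) e X H1 (lam + L1)).card + 2 ^ (lam - (l + m)))
    (hexit : 2 * D * (Mk l (l + m) e X H' lam).card <
      2 * D * (Mk l (l + m) e X H1 lam).card + 2 ^ (lam - (l + m))) :
    ∃ x, x / 2 ^ (lam - (l + m)) = e ∧
      ((below l X lam).filter fun z => x ∈ H'.H lam z).card ≤ h0 ∧
      ∀ z ∈ Mk l (l + m) e X H' lam, x ∈ H'.H lam z →
        z ∈ Mk l (l + m) e X H1 lam ∧ z ∉ Ex l (l + m) e X H1 lam L1 := by
  by_contra hcon
  push Not at hcon
  set k := lam - (l + m) with hk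
  set F := ext k e with hF
  set B1 := F.filter fun x => h0 < ((below l X lam).filter fun z => x ∈ H'.H lam z).card with hB1
  set B2 := F.filter fun x => ∃ z ∈ Ex l (l + m) e X H1 lam L1, x ∈ H'.H lam z with hB2
  set B3 := F.filter fun x => ∃ z ∈ Mk l (l + m) e X H' lam \ Mk l (l + m) e X H1 lam,
    x ∈ H'.H lam z with hB3
  have hb1 : B1.card * h0 ≤ (below l X lam).card * D := card_many_hosts_le _ _ _ _ _
  have hb2 : B2.card ≤ (Ex l (l + m) e X H1 lam L1).card * D := card_some_host_le _ _ _ _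
  have hb3 : B3.card ≤ (Mk l (l + m) e X H' lam \ Mk l (l + m) e X H1 lam).card * D :=
    card_some_host_le _ _ _ _
  have hsd := Finset.card_sdiff_add_card_eq_card
    (Mk_mono (l := l) (n0 := l + m) (e := e) (X := X) (n := lam) hle)
  have hE := card_Ex (l := l) (n0 := l + m) (e := e) (X := X) (H := H1) (n := lam) (k := L1)
    (by omega) hlam
  have hcov : F ⊆ B1 ∪ (B2 ∪ B3) := by
    intro x hx
    rw [mem_union, mem_union]
    by_contra hno
    push Not at hno
    obtain ⟨n1, n2, n3⟩ := hno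
    have hxe : x / 2 ^ k = e := mem_ext.1 hx
    have h1 : ((below l X lam).filter fun z => x ∈ H'.H lam z).card ≤ h0 := by
      by_contra h
      exact n1 (mem_filter.2 ⟨hx, not_le.1 h⟩)
    obtain ⟨z, hz1, hz2, hz3⟩ := hcon x hxe h1
    by_cases hz4 : z ∈ Mk l (l + m) e X H1 lam
    · exact n2 (mem_filter.2 ⟨hx, z, hz3 hz4, hz2⟩)
    · exact n3 (mem_filter.2 ⟨hx, z, mem_sdiff.2 ⟨hz1, hz4⟩, hz2⟩)
  have hcard : F.card ≤ B1.card + (B2.card + B3.card) :=
    le_trans (Finset.card_le_card hcov) (le_trans (Finset.card_union_le _ _)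
      (Nat.add_le_add_left (Finset.card_union_le _ _) _))
  rw [hF, card_ext] at hcard
  have hbel : (below l X lam).card ≤ N * 2 ^ (lam - l) :=
    le_trans (card_below _ _ _) (Nat.mul_le_mul_right _ hX)
  have e1 : 4 * B1.card ≤ 2 ^ k := by
    have h1 : B1.card * (4 * D * N * 2 ^ m) ≤ (N * 2 ^ (lam - l)) * D := by
      rw [← hh0]
      exact le_trans hb1 (Nat.mul_le_mul_right _ hbel)
    have h2 : lam - l = k + m := by omega
    rw [h2, pow_add] at h1
    have h3 : (4 * B1.card) * (D * N * 2 ^ m) ≤ 2 ^ k * (D * N * 2 ^ m) := by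
      calc (4 * B1.card) * (D * N * 2 ^ m) = B1.card * (4 * D * N * 2 ^ m) := by ring
        _ ≤ _ := h1
        _ = _ := by ring
    exact Nat.le_of_mul_le_mul_right h3 (by positivity)
  have e2 : 4 * B2.card ≤ 2 ^ k := by
    have h1 : 4 * D * (Mk l (l + m) e X H1 (lam + L1)).card +
        4 * D * (Ex l (l + m) e X H1 lam L1).card ≤
        4 * D * ((Mk l (l + m) e X H1 lam).card * 2 ^ L1) := by
      rw [← Nat.mul_add]
      exact Nat.mul_le_mul_left _ hE
    have h2 : 4 * B2.card ≤ 4 * D * (Ex l (l + m) e X H1 lam L1).card := by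
      calc 4 * B2.card ≤ 4 * ((Ex l (l + m) e X H1 lam L1).card * D) := Nat.mul_le_mul_left _ hb2
        _ = _ := by ring
    omega
  have e3 : 2 * B3.card < 2 ^ k := by
    have h1 : 2 * B3.card ≤
        2 * D * (Mk l (l + m) e X H' lam \ Mk l (l + m) e X H1 lam).card := by
      calc 2 * B3.card ≤ 2 * (_ * D) := Nat.mul_le_mul_left _ hb3
        _ = _ := by ring
    rw [← hsd, Nat.mul_add] at hexit
    omega
  omega

/-- number of used slots of the nodes of level `n` below `X` -/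
def used (l : ℕ) (X : Finset ℕ) (H : HS D) (n : ℕ) : ℕ := ∑ z ∈ below l X n, (H.H n z).card

theorem used_le {l n : ℕ} {X : Finset ℕ} {H : HS D} :
    used l X H n ≤ D * X.card * 2 ^ (n - l) := by
  unfold used
  calc ∑ z ∈ below l X n, (H.H n z).card ≤ ∑ _z ∈ below l X n, D :=
        Finset.sum_le_sum fun z _ => H.card_le n z
    _ = (below l X n).card * D := by simp
    _ ≤ (X.card * 2 ^ (n - l)) * D := Nat.mul_le_mul_right _ (card_below _ _ _)
    _ = _ := by ring

theorem used_lt {l n z x : ℕ} {X : Finset ℕ} {H H' : HS D} (hle : HS.le H H')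
    (hz : z ∈ below l X n) (hx : x ∈ H'.H n z) (hx' : x ∉ H.H n z) :
    used l X H n < used l X H' n := by
  unfold used
  apply Finset.sum_lt_sum
  · intro y _
    exact Finset.card_le_card (hle _ _)
  · exact ⟨z, hz, Finset.card_lt_card ⟨hle _ _, fun h => hx' (h hx)⟩⟩

theorem phase_inner {j L h τ l m f e h0 q2 L1 N lam : ℕ} (hD : 1 ≤ D)
    (hclaim : ClaimBody D (j + 1) q2 h0 L1) (X : Finset ℕ) (hX : X.card ≤ N) (hN : 1 ≤ N)
    (hh0 : h0 = 4 * D * N * 2 ^ m) (hhl : h ≤ l) (he : e / 2 ^ m = f) (hf : f < 2 ^ l)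
    (hfτ : f / 2 ^ (l - h) = τ) (hlam : l + m ≤ lam) (hlamL : lam + L1 ≤ L)
    (H0 : HS D) (κ1 : Finset ℕ)
    (hstar : ∀ H' κ', HS.le H0 H' → κ1 ⊆ κ' → ∀ n z t, l + m ≤ n → n ≤ lam + L1 →
      Alive L κ' n z → z / 2 ^ (n - l) ∈ X → t ∈ H'.H n z → t / 2 ^ (n - (l + m)) = e →
      j + 1 ≤ (H'.H n z).card)
    (H1 : HS D) (hH1 : HS.le H0 H1)
    (hdrop : 4 * D * ((Mk l (l + m) e X H1 lam).card * 2 ^ L1) ≤
      4 * D * (Mk l (l + m) e X H1 (lam + L1)).card + 2 ^ (lam - (l + m))) (r : ℕ) :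
    ∀ H' κ', HS.le H1 H' → κ1 ⊆ κ' → Good L h τ H' κ' →
      D * X.card * 2 ^ (lam - l) ≤ used l X H' lam + r →
      Forces L h τ (fun H'' κ'' => GG L l f X H'' κ'' ∨
        2 * D * (Mk l (l + m) e X H1 lam).card + 2 ^ (lam - (l + m)) ≤
          2 * D * (Mk l (l + m) e X H'' lam).card)
        ((r + 1) * (h0 * 2 ^ (L - lam - q2))) H' κ' := by
  have main : ∀ H' κ' (b : ℕ), HS.le H1 H' → κ1 ⊆ κ' → Good L h τ H' κ' →
      (∀ H'' κ'', HS.le H' H'' → κ' ⊆ κ'' → Good L h τ H'' κ'' →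
        used l X H' lam < used l X H'' lam →
        Forces L h τ (fun H'' κ'' => GG L l f X H'' κ'' ∨
          2 * D * (Mk l (l + m) e X H1 lam).card + 2 ^ (lam - (l + m)) ≤
            2 * D * (Mk l (l + m) e X H'' lam).card) b H'' κ'') →
      Forces L h τ (fun H'' κ'' => GG L l f X H'' κ'' ∨
        2 * D * (Mk l (l + m) e X H1 lam).card + 2 ^ (lam - (l + m)) ≤
          2 * D * (Mk l (l + m) e X H'' lam).card)
        (h0 * 2 ^ (L - lam - q2) + b) H' κ' := by
    intro H' κ' b hle hκ hgood hnext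
    by_cases hG : GG L l f X H' κ'
    · exact Forces.done (Or.inl hG)
    by_cases hexit : 2 * D * (Mk l (l + m) e X H1 lam).card + 2 ^ (lam - (l + m)) ≤
          2 * D * (Mk l (l + m) e X H' lam).card
    · exact Forces.done (Or.inr hexit)
    obtain ⟨x, hxe, hx1, hx2⟩ := exists_good_demand hD hN hX hh0 hlam hle hdrop
      (not_le.1 hexit)
    have hxf : x / 2 ^ (lam - l) = f := by
      rw [show lam - l = (lam - (l + m)) + m by omega, ← div_pow_div_pow, hxe, he]
    -- every alive host of `x` is below `X`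
    have hbelow : ∀ H'' κ'', HS.le H' H'' → ¬ GG L l f X H'' κ'' → ∀ z, Alive L κ'' lam z →
        x ∈ H''.H lam z → z ∈ below l X lam := by
      intro H'' κ'' _ hnG z hz1 hz2
      rw [mem_below]
      refine ⟨alive_lt (by omega) hz1, ?_⟩
      by_contra hzX
      apply hnG
      refine ⟨z / 2 ^ (lam - l), alive_up (by omega) (by omega) hz1, ?_, hzX⟩
      rw [← hxf]
      exact closed_up' H'' (by omega) hz2
    set Y := hosts L H' κ' lam x with hY
    have hYsub : Y ⊆ (below l X lam).filter fun z => x ∈ H'.H lam z := by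
      intro z hz
      rw [hY, mem_hosts (by omega)] at hz
      rw [mem_filter]
      exact ⟨hbelow H' κ' (HS.le_rfl' _) hG z hz.1 hz.2, hz.2⟩
    have hYc : Y.card ≤ h0 := le_trans (Finset.card_le_card hYsub) hx1
    have hcl := hclaim L h τ lam x H' κ' hlamL (by omega) ?_ ?_ hgood (by rw [← hY]; exact hYc) ?_
    · rw [← hY] at hcl
      refine Forces.mono (Forces.trans hcl hgood (b2 := b) (G' := fun H'' κ'' =>
        GG L l f X H'' κ'' ∨
        2 * D * (Mk l (l + m) e X H1 lam).card + 2 ^ (lam - (l + m)) ≤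
          2 * D * (Mk l (l + m) e X H'' lam).card) ?_) ?_ (fun _ _ h => h)
      · rintro H'' κ'' hle2 hκ2 hgood2 ⟨z, hz1, hz2, hz3⟩
        by_cases hG2 : GG L l f X H'' κ''
        · exact Forces.done (Or.inl hG2)
        have hzb := hbelow H'' κ'' hle2 hG2 z hz1 hz2
        refine hnext H'' κ'' hle2 hκ2 hgood2 (used_lt hle2 hzb hz2 ?_)
        intro hzx
        exact hz3 ((mem_hosts (by omega)).2 ⟨alive_anti hκ2 hz1, hzx⟩)
      · exact Nat.add_le_add_right (Nat.mul_le_mul_right _ hYc) _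
    · -- x < 2 ^ lam
      have h1 : x / 2 ^ (lam - l) < 2 ^ l := by rw [hxf]; exact hf
      rw [Nat.div_lt_iff_lt_mul (by positivity), ← pow_add] at h1
      rwa [show l + (lam - l) = lam by omega] at h1
    · rw [show lam - h = (lam - l) + (l - h) by omega, ← div_pow_div_pow, hxf, hfτ]
    · intro n y hn1 hn2 hy1 hy2
      rw [← hY] at hy2
      have hz := hYsub hy2
      rw [mem_filter] at hz
      have hzM : y / 2 ^ (n - lam) ∈ Mk l (l + m) e X H' lam := by
        rw [mem_Mk]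
        exact ⟨hz.1, x, hz.2, hxe⟩
      obtain ⟨h3, h4⟩ := hx2 _ hzM hz.2
      have h5 : y * 2 ^ (lam + L1 - n) ∈ Mk l (l + m) e X H1 (lam + L1) := by
        by_contra h6
        apply h4
        unfold Ex
        rw [mem_filter]
        refine ⟨h3, y * 2 ^ (lam + L1 - n), ?_, ?_, h6⟩
        · have h7 := alive_lt (by omega) hy1
          calc y * 2 ^ (lam + L1 - n) < 2 ^ n * 2 ^ (lam + L1 - n) :=
                Nat.mul_lt_mul_of_pos_right h7 (by positivity)
            _ = _ := by rw [← pow_add]; congr 1; omega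
        · rw [show L1 = (lam + L1 - n) + (n - lam) by omega, ← div_pow_div_pow]
          rw [show lam + (lam + L1 - n + (n - lam)) - n = lam + L1 - n by omega]
          rw [Nat.mul_div_cancel _ (by positivity)]
      have h6 : y * 2 ^ (lam + L1 - n) / 2 ^ (lam + L1 - n) ∈ Mk l (l + m) e X H1 n := by
        apply Mk_up (by omega) (by omega)
        rwa [show n + (lam + L1 - n) = lam + L1 by omega]
      rw [Nat.mul_div_cancel _ (by positivity), mem_Mk, mem_below] at h6
      obtain ⟨⟨_, h7⟩, t, h8, h9⟩ := h6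
      exact hstar H' κ' (HS.le_trans' hH1 hle) hκ n y t (by omega) hn2 hy1 h7 (hle _ _ h8) h9
  induction r with
  | zero =>
    intro H' κ' hle hκ hgood hr
    refine (main H' κ' 0 hle hκ hgood ?_).mono (by omega) (fun _ _ h => h)
    intro H'' κ'' h1 h2 h3 h4
    exfalso
    have := used_le (l := l) (n := lam) (X := X) (H := H'')
    omega
  | succ r ih =>
    intro H' κ' hle hκ hgood hr
    refine (main H' κ' ((r + 1) * (h0 * 2 ^ (L - lam - q2))) hle hκ hgood ?_).mono ?_
      (fun _ _ h => h)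
    · intro H'' κ'' h1 h2 h3 h4
      exact ih H'' κ'' (HS.le_trans' hle h1) (hκ.trans h2) h3 (by omega)
    · rw [add_mul (r + 1) 1, one_mul, add_comm]

theorem phase {j L h τ l m f e h0 q2 L1 N lam : ℕ} (hD : 1 ≤ D)
    (hclaim : ClaimBody D (j + 1) q2 h0 L1) (hq2 : q2 ≤ L1)
    (X : Finset ℕ) (hX : X.card ≤ N) (hX1 : 1 ≤ X.card)
    (hh0 : h0 = 4 * D * N * 2 ^ m) (hhl : h ≤ l) (he : e / 2 ^ m = f) (hf : f < 2 ^ l)
    (hfτ : f / 2 ^ (l - h) = τ) (hlam : l + m ≤ lam) (hlamL : lam + L1 ≤ L)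
    (H0 : HS D) (κ1 : Finset ℕ)
    (hstar : ∀ H' κ', HS.le H0 H' → κ1 ⊆ κ' → ∀ n z t, l + m ≤ n → n ≤ lam + L1 →
      Alive L κ' n z → z / 2 ^ (n - l) ∈ X → t ∈ H'.H n z → t / 2 ^ (n - (l + m)) = e →
      j + 1 ≤ (H'.H n z).card)
    (H1 : HS D) (κ2 : Finset ℕ) (hH1 : HS.le H0 H1) (hκ : κ1 ⊆ κ2) (hgood : Good L h τ H1 κ2)
    (hdrop : 4 * D * ((Mk l (l + m) e X H1 lam).card * 2 ^ L1) ≤
      4 * D * (Mk l (l + m) e X H1 (lam + L1)).card + 2 ^ (lam - (l + m))) :
    Forces L h τ (fun H'' κ'' => GG L l f X H'' κ'' ∨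
        2 * D * (Mk l (l + m) e X H1 lam).card + 2 ^ (lam - (l + m)) ≤
          2 * D * (Mk l (l + m) e X H'' lam).card)
        (2 * D * X.card * h0 * 2 ^ (L - l - q2)) H1 κ2 := by
  refine (phase_inner hD hclaim X hX (by omega) hh0 hhl he hf hfτ hlam hlamL H0 κ1 hstar H1 hH1
    hdrop (D * X.card * 2 ^ (lam - l)) H1 κ2 (HS.le_rfl' _) hκ hgood (by omega)).mono ?_
    (fun _ _ h => h)
  have h1 : D * X.card * 2 ^ (lam - l) + 1 ≤ 2 * (D * X.card * 2 ^ (lam - l)) := by
    have : 0 < D * X.card * 2 ^ (lam - l) := by positivity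
    omega
  calc (D * X.card * 2 ^ (lam - l) + 1) * (h0 * 2 ^ (L - lam - q2))
      ≤ 2 * (D * X.card * 2 ^ (lam - l)) * (h0 * 2 ^ (L - lam - q2)) :=
        Nat.mul_le_mul_right _ h1
    _ = 2 * D * X.card * h0 * (2 ^ (lam - l) * 2 ^ (L - lam - q2)) := by ring
    _ = _ := by
        rw [← pow_add]
        congr 2
        omega

theorem exists_drop {l m e L1 N μ B : ℕ} (hD : 1 ≤ D) (hN : 1 ≤ N) {X : Finset ℕ}
    (hX : X.card ≤ N) (hB : B = 4 * D * N * 2 ^ (m + L1)) (hμ : l + m + B * L1 ≤ μ) (H1 : HS D) :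
    ∃ s, s < B ∧
      4 * D * ((Mk l (l + m) e X H1 (μ - (s + 1) * L1)).card * 2 ^ L1) ≤
        4 * D * (Mk l (l + m) e X H1 (μ - (s + 1) * L1 + L1)).card +
          2 ^ (μ - (s + 1) * L1 - (l + m)) := by
  by_contra hcon
  push Not at hcon
  have hB1 : 1 ≤ B := by
    rw [hB]
    exact Nat.succ_le_of_lt (by positivity)
  have hL1B : L1 ≤ B * L1 := Nat.le_mul_of_pos_left _ hB1
  have key : ∀ s, s ≤ B → s * (2 ^ (μ - (l + m) - L1) + 1) ≤
      4 * D * ((Mk l (l + m) e X H1 (μ - s * L1)).card * 2 ^ (s * L1)) := by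
    intro s
    induction s with
    | zero => intro _; simp
    | succ s ih =>
      intro hs
      have h1 := ih (by omega)
      have h2 := hcon s (by omega)
      have h3 : (s + 1) * L1 ≤ B * L1 := Nat.mul_le_mul_right _ hs
      have h4 : (s + 1) * L1 = s * L1 + L1 := by rw [add_mul, one_mul]
      have h5 : μ - (s + 1) * L1 + L1 = μ - s * L1 := by omega
      rw [h5] at h2
      have h6 : (4 * D * (Mk l (l + m) e X H1 (μ - s * L1)).card +
          2 ^ (μ - (s + 1) * L1 - (l + m)) + 1) * 2 ^ (s * L1) ≤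
          (4 * D * ((Mk l (l + m) e X H1 (μ - (s + 1) * L1)).card * 2 ^ L1)) * 2 ^ (s * L1) :=
        Nat.mul_le_mul_right _ h2
      have h7 : 2 ^ (μ - (s + 1) * L1 - (l + m)) * 2 ^ (s * L1) = 2 ^ (μ - (l + m) - L1) := by
        rw [← pow_add]
        congr 1
        omega
      have h8 : 1 ≤ 2 ^ (s * L1) := Nat.one_le_two_pow
      calc (s + 1) * (2 ^ (μ - (l + m) - L1) + 1)
          = s * (2 ^ (μ - (l + m) - L1) + 1) + 2 ^ (μ - (l + m) - L1) + 1 := by ring
        _ ≤ 4 * D * ((Mk l (l + m) e X H1 (μ - s * L1)).card * 2 ^ (s * L1)) +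
            2 ^ (μ - (s + 1) * L1 - (l + m)) * 2 ^ (s * L1) + 2 ^ (s * L1) := by
            rw [h7]; omega
        _ = (4 * D * (Mk l (l + m) e X H1 (μ - s * L1)).card +
          2 ^ (μ - (s + 1) * L1 - (l + m)) + 1) * 2 ^ (s * L1) := by ring
        _ ≤ _ := h6
        _ = _ := by rw [h4, pow_add]; ring
  have hk := key B le_rfl
  have h1 : 4 * D * ((Mk l (l + m) e X H1 (μ - B * L1)).card * 2 ^ (B * L1)) ≤
      B * 2 ^ (μ - (l + m) - L1) := by
    have h2 : (Mk l (l + m) e X H1 (μ - B * L1)).card ≤ N * 2 ^ (μ - B * L1 - l) :=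
      le_trans card_Mk_le (Nat.mul_le_mul_right _ hX)
    calc 4 * D * ((Mk l (l + m) e X H1 (μ - B * L1)).card * 2 ^ (B * L1))
        ≤ 4 * D * ((N * 2 ^ (μ - B * L1 - l)) * 2 ^ (B * L1)) :=
          Nat.mul_le_mul_left _ (Nat.mul_le_mul_right _ h2)
      _ = 4 * D * N * (2 ^ (μ - B * L1 - l) * 2 ^ (B * L1)) := by ring
      _ = 4 * D * N * (2 ^ (m + L1) * 2 ^ (μ - (l + m) - L1)) := by
          rw [← pow_add, ← pow_add]
          congr 2
          omega
      _ = B * 2 ^ (μ - (l + m) - L1) := by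
          conv_rhs => rw [hB]
          ring
  have h3 : B * (2 ^ (μ - (l + m) - L1) + 1) = B * 2 ^ (μ - (l + m) - L1) + B := by ring
  omega

theorem outer {j L h τ l m f e h0 q2 L1 N T B : ℕ} (hD : 1 ≤ D)
    (hclaim : ClaimBody D (j + 1) q2 h0 L1) (hq2 : q2 ≤ L1)
    (X : Finset ℕ) (hX : X.card ≤ N) (hX1 : 1 ≤ X.card)
    (hh0 : h0 = 4 * D * N * 2 ^ m) (hB : B = 4 * D * N * 2 ^ (m + L1))
    (hT : T = 2 * D * N * 2 ^ m + 1) (hhl : h ≤ l) (he : e / 2 ^ m = f) (hf : f < 2 ^ l)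
    (hfτ : f / 2 ^ (l - h) = τ) (hL : l + m + T * (B * L1) ≤ L)
    (H0 : HS D) (κ1 : Finset ℕ)
    (hstar : ∀ H' κ', HS.le H0 H' → κ1 ⊆ κ' → ∀ n z t, l + m ≤ n → n ≤ l + m + T * (B * L1) →
      Alive L κ' n z → z / 2 ^ (n - l) ∈ X → t ∈ H'.H n z → t / 2 ^ (n - (l + m)) = e →
      j + 1 ≤ (H'.H n z).card) (i : ℕ) :
    i ≤ T → ∀ (H1 : HS D) (κ2 : Finset ℕ), HS.le H0 H1 → κ1 ⊆ κ2 → Good L h τ H1 κ2 →
      (T - i) * 2 ^ (i * (B * L1)) ≤
        2 * D * (Mk l (l + m) e X H1 (l + m + i * (B * L1))).card →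
      Forces L h τ (GG L l f X) (i * (2 * D * X.card * h0 * 2 ^ (L - l - q2))) H1 κ2 := by
  induction i with
  | zero =>
    intro _ H1 κ2 _ _ _ hM
    exfalso
    rw [zero_mul, pow_zero, mul_one, Nat.sub_zero, add_zero] at hM
    have h1 := card_Mk_le (l := l) (n0 := l + m) (e := e) (n := l + m) (X := X) (H := H1)
    rw [Nat.add_sub_cancel_left] at h1
    have h2 : 2 * D * (Mk l (l + m) e X H1 (l + m)).card ≤ 2 * D * (N * 2 ^ m) :=
      Nat.mul_le_mul_left _ (le_trans h1 (Nat.mul_le_mul_right _ hX))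
    have h3 : 2 * D * (N * 2 ^ m) = 2 * D * N * 2 ^ m := by ring
    omega
  | succ i ih =>
    intro hi H1 κ2 hle hκ hgood hM
    have hiT : (i + 1) * (B * L1) ≤ T * (B * L1) := Nat.mul_le_mul_right _ hi
    have hi1 : (i + 1) * (B * L1) = i * (B * L1) + B * L1 := by rw [add_mul, one_mul]
    obtain ⟨s, hs, hdrop⟩ := exists_drop (l := l) (m := m) (e := e) (L1 := L1) (N := N)
      (μ := l + m + (i + 1) * (B * L1)) (B := B) hD (by omega) hX hB (by omega) H1
    have hsB : (s + 1) * L1 ≤ B * L1 := Nat.mul_le_mul_right _ hs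
    have hsL : (s + 1) * L1 = s * L1 + L1 := by rw [add_mul, one_mul]
    obtain ⟨lam, hlamdef⟩ : ∃ lam, lam = l + m + (i + 1) * (B * L1) - (s + 1) * L1 := ⟨_, rfl⟩
    rw [← hlamdef] at hdrop
    have hph := phase hD hclaim hq2 X hX hX1 hh0 hhl he hf hfτ (lam := lam) (by omega)
      (by omega) H0 κ1 (fun H' κ' h1 h2 n z t h3 h4 => hstar H' κ' h1 h2 n z t h3 (by omega))
      H1 κ2 hle hκ hgood hdrop
    refine Forces.mono (Forces.trans hph hgood
      (b2 := i * (2 * D * X.card * h0 * 2 ^ (L - l - q2))) (G' := GG L l f X) ?_) ?_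
      (fun _ _ h => h)
    · rintro H'' κ'' hle2 hκ2 hgood2 (hG | hex)
      · exact Forces.done hG
      · refine ih (by omega) H'' κ'' (HS.le_trans' hle hle2) (hκ.trans hκ2) hgood2 ?_
        -- the arithmetic
        set M1 := (Mk l (l + m) e X H1 lam).card with hM1
        set M2 := (Mk l (l + m) e X H'' lam).card with hM2
        have a1 : (T - (i + 1)) * 2 ^ (lam - (l + m)) ≤ 2 * D * M1 := by
          have b1 : (Mk l (l + m) e X H1 (l + m + (i + 1) * (B * L1))).card ≤
              M1 * 2 ^ ((s + 1) * L1) := by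
            have := card_Mk_le_mul (l := l) (n0 := l + m) (e := e) (n := lam)
              (k := (s + 1) * L1) (X := X) (H := H1) (by omega) (by omega)
            rwa [show lam + (s + 1) * L1 = l + m + (i + 1) * (B * L1) by omega] at this
          have b2 : (T - (i + 1)) * 2 ^ (lam - (l + m)) * 2 ^ ((s + 1) * L1) ≤
              2 * D * M1 * 2 ^ ((s + 1) * L1) := by
            calc (T - (i + 1)) * 2 ^ (lam - (l + m)) * 2 ^ ((s + 1) * L1)
                = (T - (i + 1)) * 2 ^ ((i + 1) * (B * L1)) := by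
                  rw [mul_assoc, ← pow_add]
                  congr 2
                  omega
              _ ≤ _ := hM
              _ ≤ 2 * D * (M1 * 2 ^ ((s + 1) * L1)) := Nat.mul_le_mul_left _ b1
              _ = _ := by ring
          exact Nat.le_of_mul_le_mul_right b2 (by positivity)
        have a2 : (T - i) * 2 ^ (lam - (l + m)) ≤ 2 * D * M2 := by
          have : (T - i) * 2 ^ (lam - (l + m)) =
              (T - (i + 1)) * 2 ^ (lam - (l + m)) + 2 ^ (lam - (l + m)) := by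
            rw [show T - i = (T - (i + 1)) + 1 by omega, add_mul, one_mul]
          omega
        have b1 : M2 ≤ (Mk l (l + m) e X H'' (l + m + i * (B * L1))).card *
            2 ^ (lam - (l + m + i * (B * L1))) := by
          have := card_Mk_le_mul (l := l) (n0 := l + m) (e := e) (n := l + m + i * (B * L1))
            (k := lam - (l + m + i * (B * L1))) (X := X) (H := H'') (by omega) (by omega)
          rwa [show l + m + i * (B * L1) + (lam - (l + m + i * (B * L1))) = lam by omega] at this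
        have b2 : (T - i) * 2 ^ (i * (B * L1)) * 2 ^ (lam - (l + m + i * (B * L1))) ≤
            2 * D * (Mk l (l + m) e X H'' (l + m + i * (B * L1))).card *
              2 ^ (lam - (l + m + i * (B * L1))) := by
          calc (T - i) * 2 ^ (i * (B * L1)) * 2 ^ (lam - (l + m + i * (B * L1)))
              = (T - i) * 2 ^ (lam - (l + m)) := by
                rw [mul_assoc, ← pow_add]
                congr 2
                omega
            _ ≤ _ := a2
            _ ≤ 2 * D * ((Mk l (l + m) e X H'' (l + m + i * (B * L1))).card *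
                  2 ^ (lam - (l + m + i * (B * L1)))) := Nat.mul_le_mul_left _ b1
            _ = _ := by ring
        exact Nat.le_of_mul_le_mul_right b2 (by positivity)
    · rw [add_mul i 1, one_mul, add_comm]

theorem claim_step (j : ℕ) (hD : 1 ≤ D) (hc : Claim D (j + 1)) : Claim D j := by
  intro q N
  obtain ⟨m, hm⟩ : ∃ m, m = q + 1 + D := ⟨_, rfl⟩
  obtain ⟨h0, hh0⟩ : ∃ h0, h0 = 4 * D * N * 2 ^ m := ⟨_, rfl⟩
  obtain ⟨T, hT⟩ : ∃ T, T = 2 * D * N * 2 ^ m + 1 := ⟨_, rfl⟩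
  obtain ⟨q2, hq2⟩ : ∃ q2, q2 = q + 2 + T * D * h0 := ⟨_, rfl⟩
  obtain ⟨L1, hL1, hclaim⟩ := hc q2 h0
  obtain ⟨B, hB⟩ : ∃ B, B = 4 * D * N * 2 ^ (m + L1) := ⟨_, rfl⟩
  refine ⟨m + T * (B * L1), by omega, ?_⟩
  intro L h τ l f H κ hL hhl hf hfτ hgood hN hused
  obtain ⟨e, hef, hec⟩ := exists_few_hosts (D := D) (L := L) (l := l) (m := m) (f := f)
    (H := H) (κ := κ) (by omega)
  set X := hosts L H κ l f with hX
  have hX1 : 1 ≤ X.card := by
    rw [Nat.one_le_iff_ne_zero, Ne, Finset.card_eq_zero]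
    intro hemp
    have hlt : f * 2 ^ (L - l) < 2 ^ L := by
      calc f * 2 ^ (L - l) < 2 ^ l * 2 ^ (L - l) := Nat.mul_lt_mul_of_pos_right hf (by positivity)
        _ = 2 ^ L := by rw [← pow_add]; congr 1; omega
    have hdiv : f * 2 ^ (L - l) / 2 ^ (L - l) = f := Nat.mul_div_cancel _ (by positivity)
    obtain ⟨z, hz1, hz2, hz3⟩ := hgood (f * 2 ^ (L - l)) hlt (by
      rw [show L - h = (L - l) + (l - h) by omega, ← div_pow_div_pow, hdiv, hfτ])
    have h1 := closed_up' H (m := l) (by omega) hz3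
    rw [hdiv] at h1
    have h2 : z / 2 ^ (L - l) ∈ X := by
      rw [hX, mem_hosts (by omega)]
      exact ⟨⟨z, hz1, rfl, hz2⟩, h1⟩
    rw [hemp] at h2
    exact absurd h2 (Finset.notMem_empty _)
  have hN1 : 1 ≤ N := le_trans hX1 hN
  have hB1 : 1 ≤ B := by
    rw [hB]
    exact Nat.succ_le_of_lt (by positivity)
  have hTBL : L1 ≤ T * (B * L1) := by
    calc L1 ≤ B * L1 := Nat.le_mul_of_pos_left _ hB1
      _ ≤ T * (B * L1) := Nat.le_mul_of_pos_left _ (by omega)
  have he : e < 2 ^ (l + m) := by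
    rw [pow_add, ← Nat.div_lt_iff_lt_mul (by positivity), hef]
    exact hf
  have heτ : e / 2 ^ (l + m - h) = τ := by
    rw [show l + m - h = m + (l - h) by omega, ← div_pow_div_pow, hef, hfτ]
  obtain ⟨S, hS⟩ : ∃ S, S = (range (2 ^ L)).filter fun w =>
    w / 2 ^ (L - (l + m)) ∈ hosts L H κ (l + m) e := ⟨_, rfl⟩
  have hk := Forces.kill (D := D) (L := L) (h := h) (τ := τ) (n := l + m) (e := e)
    (b' := T * (2 * D * X.card * h0 * 2 ^ (L - l - q2)))
    (G := fun H' κ' => ∃ z, Alive L κ' l z ∧ f ∈ H'.H l z ∧ z ∉ X) (H := H) (κ := κ)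
    (by omega) (by omega) he heτ S hS ?_
  · refine hk.mono ?_ (fun _ _ h => h)
    have c1 : (hosts L H κ (l + m) e).card * 2 ^ (L - (l + m)) ≤
        X.card * 2 ^ (L - l - q - 1) := by
      calc (hosts L H κ (l + m) e).card * 2 ^ (L - (l + m))
          ≤ (X.card * D) * 2 ^ (L - (l + m)) := Nat.mul_le_mul_right _ hec
        _ ≤ (X.card * 2 ^ D) * 2 ^ (L - (l + m)) :=
            Nat.mul_le_mul_right _ (Nat.mul_le_mul_left _ (Nat.lt_two_pow_self).le)
        _ = X.card * 2 ^ (L - l - q - 1) := by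
            rw [mul_assoc, ← pow_add]
            congr 2
            omega
    have c2 : T * (2 * D * X.card * h0 * 2 ^ (L - l - q2)) ≤ X.card * 2 ^ (L - l - q - 1) := by
      calc T * (2 * D * X.card * h0 * 2 ^ (L - l - q2))
          = X.card * (2 * (T * D * h0) * 2 ^ (L - l - q2)) := by ring
        _ ≤ X.card * (2 * 2 ^ (T * D * h0) * 2 ^ (L - l - q2)) := by
            apply Nat.mul_le_mul_left
            apply Nat.mul_le_mul_right
            apply Nat.mul_le_mul_left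
            exact (Nat.lt_two_pow_self).le
        _ = X.card * 2 ^ (L - l - q - 1) := by
            rw [← pow_succ', ← pow_add]
            congr 2
            omega
    have c3 : X.card * 2 ^ (L - l - q) = X.card * 2 ^ (L - l - q - 1) * 2 := by
      rw [mul_assoc, ← pow_succ]
      congr 2
      omega
    omega
  · intro H' hle hg' _
    refine outer hD hclaim hL1 X hN hX1 hh0 hB hT hhl hef hf hfτ (by omega) H (κ ∪ S) ?_ T le_rfl
      H' (κ ∪ S) hle (Finset.Subset.refl _) hg' (by simp)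
    intro H'' κ'' hle2 hκ2 n z t hn1 hn2 hz1 hz2 ht1 ht2
    have hj : j ≤ (H.H n z).card := hused n z (by omega) (by omega)
      (alive_anti (Finset.subset_union_left.trans hκ2) hz1) hz2
    have hnot : t ∉ H.H n z := by
      intro ht
      have h1 := closed_up' H (m := l + m) (by omega) ht
      rw [ht2] at h1
      have h2 := alive_up (m := l + m) (by omega) (by omega) (alive_anti hκ2 hz1)
      obtain ⟨w, hw1, hw2, hw3⟩ := h2
      apply hw3
      rw [mem_union]
      by_cases hwκ : w ∈ κ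
      · exact Or.inl hwκ
      right
      rw [hS, mem_filter, mem_range]
      refine ⟨hw1, ?_⟩
      rw [mem_hosts (by omega), hw2]
      exact ⟨⟨w, hw1, hw2, hwκ⟩, h1⟩
    exact lt_of_le_of_lt hj (Finset.card_lt_card ⟨hle2 _ _, fun h => hnot (h ht1)⟩)

theorem claim_zero (D : ℕ) (hD : 1 ≤ D) : Claim D 0 := by
  have key : ∀ i, i ≤ D → Claim D (D - i) := by
    intro i
    induction i with
    | zero => intro _; exact claim_base D
    | succ i ih =>
      intro hi
      apply claim_step _ hD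
      rw [show D - (i + 1) + 1 = D - i by omega]
      exact ih (by omega)
  have := key D le_rfl
  rwa [Nat.sub_self] at this

def PWins : Prop := ∀ D h τ m : ℕ, 1 ≤ D → τ < 2 ^ h → ∃ L, h + m ≤ L ∧
  ∀ H : HS D, Good L h τ H ∅ → Forces L h τ (fun _ _ => False) (2 ^ (L - m)) H ∅

theorem pwins : PWins := by
  intro D h τ m hD hτ
  obtain ⟨l', hl', hclaim⟩ := claim_zero D hD (h + m + 1) (2 ^ h)
  refine ⟨h + l', by omega, ?_⟩
  have main : ∀ r : ℕ, ∀ (H : HS D) (κ : Finset ℕ), Good (h + l') h τ H κ →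
      2 ^ h ≤ ((range (2 ^ h)).filter fun z => τ ∈ H.H h z).card + r →
      Forces (h + l') h τ (fun _ _ => False) ((r + 1) * 2 ^ (l' - m - 1)) H κ := by
    have step : ∀ (b : ℕ) (H : HS D) (κ : Finset ℕ), Good (h + l') h τ H κ →
        (∀ (H' : HS D) (κ' : Finset ℕ), Good (h + l') h τ H' κ' →
          ((range (2 ^ h)).filter fun z => τ ∈ H.H h z).card <
            ((range (2 ^ h)).filter fun z => τ ∈ H'.H h z).card →
          Forces (h + l') h τ (fun _ _ => False) b H' κ') →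
        Forces (h + l') h τ (fun _ _ => False) (2 ^ (l' - m - 1) + b) H κ := by
      intro b H κ hgood hnext
      have hXc : (hosts (h + l') H κ h τ).card ≤ 2 ^ h := by
        refine le_trans (Finset.card_le_card (t := range (2 ^ h)) ?_) (by simp)
        intro y hy
        rw [mem_hosts (by omega)] at hy
        exact mem_range.2 (alive_lt (by omega) hy.1)
      have hcl := hclaim (h + l') h τ h τ H κ le_rfl le_rfl hτ (by simp) hgood hXc
        (fun _ _ _ _ _ _ => Nat.zero_le _)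
      refine Forces.mono (Forces.trans hcl hgood (b2 := b) (G' := fun _ _ => False) ?_) ?_
        (fun _ _ h => h)
      · rintro H' κ' hle hκ hg' ⟨z, hz1, hz2, hz3⟩
        apply hnext H' κ' hg'
        apply Finset.card_lt_card
        refine ⟨?_, ?_⟩
        · intro y hy
          rw [mem_filter] at hy ⊢
          exact ⟨hy.1, hle _ _ hy.2⟩
        · intro hsub
          have h1 : z ∈ (range (2 ^ h)).filter fun z => τ ∈ H'.H h z := by
            rw [mem_filter, mem_range]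
            exact ⟨alive_lt (by omega) hz1, hz2⟩
          have h2 := (mem_filter.1 (hsub h1)).2
          exact hz3 ((mem_hosts (by omega)).2 ⟨alive_anti hκ hz1, h2⟩)
      · apply Nat.add_le_add_right
        calc (hosts (h + l') H κ h τ).card * 2 ^ (h + l' - h - (h + m + 1))
            ≤ 2 ^ h * 2 ^ (h + l' - h - (h + m + 1)) := Nat.mul_le_mul_right _ hXc
          _ = 2 ^ (l' - m - 1) := by
              rw [← pow_add]
              congr 1
              omega
    intro r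
    induction r with
    | zero =>
      intro H κ hgood hr
      refine (step 0 H κ hgood ?_).mono (by omega) (fun _ _ h => h)
      intro H' κ' _ hlt
      exfalso
      have : ((range (2 ^ h)).filter fun z => τ ∈ H'.H h z).card ≤ 2 ^ h :=
        le_trans (Finset.card_filter_le _ _) (by simp)
      omega
    | succ r ih =>
      intro H κ hgood hr
      refine (step ((r + 1) * 2 ^ (l' - m - 1)) H κ hgood ?_).mono ?_ (fun _ _ h => h)
      · intro H' κ' hg' hlt
        exact ih H' κ' hg' (by omega)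
      · rw [add_mul (r + 1) 1, one_mul, add_comm]
  intro H hgood
  refine (main (2 ^ h) H ∅ hgood (by omega)).mono ?_ (fun _ _ h => h)
  calc (2 ^ h + 1) * 2 ^ (l' - m - 1) ≤ (2 * 2 ^ h) * 2 ^ (l' - m - 1) := by
        apply Nat.mul_le_mul_right
        have : 1 ≤ 2 ^ h := Nat.one_le_two_pow
        omega
    _ = 2 ^ (h + l' - m) := by
        rw [← pow_succ', ← pow_add]
        congr 1
        omega

end Pool.Agent.Helper926.RK
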