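import Mathlib
import Pool.Agent.Helper926.RK.Game
import Pool.Agent.Helper926.RK.Codes

set_option autoImplicit false

namespace Pool.Agent.Helper926.RK

open Finset

variable {D : ℕ}

theorem cntB_eq_card (f : ℕ → Bool) (N : ℕ) : cntB f N = ((range N).filter (fun i => f i = true)).card := by
  induction N with
  | zero => simp [cntB]
  | succ N ih =>
    rw [Finset.range_add_one, Finset.filter_insert]
    by_cases h : f N = true
    · rw [if_pos h, Finset.card_insert_of_notMem (by simp), cntB, ih, h]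
      simp
    · rw [if_neg h, cntB, ih]
      simp [h]

theorem exists_testBit (P : ℕ → Bool) (N : ℕ) : ∃ v, v < 2 ^ N ∧ ∀ i < N, v.testBit i = P i := by
  induction N with
  | zero => exact ⟨0, by simp, fun i hi => absurd hi (Nat.not_lt_zero i)⟩
  | succ N ih =>
    obtain ⟨v, hv, h⟩ := ih
    by_cases hP : P N = true
    · refine ⟨2 ^ N + v, ?_, ?_⟩
      · rw [pow_succ]; omega
      · intro i hi
        rcases Nat.lt_succ_iff_lt_or_eq.1 hi with h1 | h1
        · rw [Nat.testBit_two_pow_add_gt h1]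
          exact h i h1
        · subst h1
          rw [Nat.testBit_two_pow_add_eq, Nat.testBit_lt_two_pow hv, hP]
          rfl
    · refine ⟨v, ?_, ?_⟩
      · rw [pow_succ]; omega
      · intro i hi
        rcases Nat.lt_succ_iff_lt_or_eq.1 hi with h1 | h1
        · exact h i h1
        · subst h1
          rw [Nat.testBit_lt_two_pow hv]
          simpa using hP

/-- killed set coded by `κ` -/
def KK (L κ : ℕ) : Finset ℕ := (range (2 ^ L)).filter (fun w => κ.testBit w = true)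

theorem KK_zero (L : ℕ) : KK L 0 = ∅ := by
  simp [KK]

theorem exists_KK (L : ℕ) (S : Finset ℕ) (hS : S ⊆ range (2 ^ L)) : ∃ κ, κ < 2 ^ (2 ^ L) ∧ KK L κ = S := by
  classical
  obtain ⟨v, hv, h⟩ := exists_testBit (fun i => decide (i ∈ S)) (2 ^ L)
  refine ⟨v, hv, ?_⟩
  ext w
  rw [KK, Finset.mem_filter, Finset.mem_range]
  constructor
  · rintro ⟨h1, h2⟩
    rw [h w h1] at h2
    simpa using h2
  · intro hw
    have h1 := Finset.mem_range.1 (hS hw)
    exact ⟨h1, by rw [h w h1]; simpa using hw⟩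

/-- table coded by a snapshot -/
def HU (D L u : ℕ) (hv : Valid D L u) : HS D where
  H := fun n z => if n ≤ L ∧ z < 2 ^ n then
    (range (2 ^ n)).filter (fun t => u.testBit ((n * 2 ^ L + z) * 2 ^ L + t) = true) else ∅
  card_le := by
    intro n z
    by_cases h : n ≤ L ∧ z < 2 ^ n
    · rw [if_pos h, ← cntB_eq_card]
      exact hv.2 n (by omega) z h.2
    · rw [if_neg h]; simp
  closed := by
    intro n z t ht
    by_cases h : n + 1 ≤ L ∧ z < 2 ^ (n + 1)
    · rw [if_pos h, Finset.mem_filter, Finset.mem_range] at ht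
      have h2 : n ≤ L ∧ z / 2 < 2 ^ n := ⟨by omega, by have := h.2; rw [pow_succ] at this; omega⟩
      rw [if_pos h2, Finset.mem_filter, Finset.mem_range]
      refine ⟨by have := ht.1; rw [pow_succ] at this; omega, ?_⟩
      exact hv.1 n (by omega) z h.2 t ht.1 ht.2
    · rw [if_neg h] at ht
      exact absurd ht (Finset.notMem_empty t)

theorem mem_HU (D L u : ℕ) (hv : Valid D L u) (n z t : ℕ) :
    t ∈ (HU D L u hv).H n z ↔ n ≤ L ∧ z < 2 ^ n ∧ t < 2 ^ n ∧ Mem L u n z t := by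
  show t ∈ (if n ≤ L ∧ z < 2 ^ n then
    (range (2 ^ n)).filter (fun t => u.testBit ((n * 2 ^ L + z) * 2 ^ L + t) = true) else ∅) ↔ _
  by_cases h : n ≤ L ∧ z < 2 ^ n
  · rw [if_pos h, Finset.mem_filter, Finset.mem_range]
    exact ⟨fun h' => ⟨h.1, h.2, h'.1, h'.2⟩, fun h' => ⟨h'.2.2.1, h'.2.2.2⟩⟩
  · rw [if_neg h]
    constructor
    · intro h'; exact absurd h' (Finset.notMem_empty t)
    · intro h'; exact absurd ⟨h'.1, h'.2.1⟩ h

theorem goodC_iff (D L h τ u κ : ℕ) (hv : Valid D L u) :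
    GoodC L h τ u κ ↔ Good L h τ (HU D L u hv) (KK L κ) := by
  unfold GoodC Good
  refine forall_congr' fun t => ?_
  refine forall_congr' fun ht => ?_
  refine forall_congr' fun _ => ?_
  constructor
  · rintro ⟨z, hz, h1, h2⟩
    refine ⟨z, hz, ?_, (mem_HU D L u hv L z t).2 ⟨le_rfl, hz, ht, h2⟩⟩
    intro h3
    exact h1 (Finset.mem_filter.1 h3).2
  · rintro ⟨z, hz, h1, h2⟩
    refine ⟨z, hz, ?_, ((mem_HU D L u hv L z t).1 h2).2.2.2⟩
    intro h3
    exact h1 (Finset.mem_filter.2 ⟨Finset.mem_range.2 hz, h3⟩)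

theorem forces_inv (L h τ b : ℕ) (H : HS D) (κ : Finset ℕ)
    (hF : Forces L h τ (fun _ _ => False) b H κ) :
    ∃ (S : Finset ℕ) (b' : ℕ), S ⊆ range (2 ^ L) ∧ S.card + b' ≤ b ∧ ¬ Good L h τ H (κ ∪ S) ∧
      ∀ H', HS.le H H' → Good L h τ H' (κ ∪ S) → Forces L h τ (fun _ _ => False) b' H' (κ ∪ S) := by
  cases hF with
  | done h => exact h.elim
  | step S hS hb hng hn => exact ⟨S, _, hS, hb, hng, hn⟩

/-- the entries of the table -/
def Ent (D h τ m L : ℕ) (b : ℕ × ℕ × ℕ) : Prop :=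
  b.1 < 2 ^ Mb L ∧ b.2.1 < 2 ^ (2 ^ L) ∧ b.2.2 < 2 ^ (2 ^ L) ∧
  ∃ hv : Valid D L b.1, KK L b.2.1 ⊆ KK L b.2.2 ∧ ∃ b' : ℕ, (KK L b.2.2).card + b' ≤ 2 ^ (L - m) ∧
    ¬ Good L h τ (HU D L b.1 hv) (KK L b.2.2) ∧
    ∀ H', HS.le (HU D L b.1 hv) H' → Good L h τ H' (KK L b.2.2) →
      Forces L h τ (fun _ _ => False) b' H' (KK L b.2.2)

theorem ent_step (D h τ m L u κ b : ℕ) (hu : u < 2 ^ Mb L) (hκ : κ < 2 ^ (2 ^ L)) (hv : Valid D L u)
    (hb : (KK L κ).card + b ≤ 2 ^ (L - m))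
    (hF : Forces L h τ (fun _ _ => False) b (HU D L u hv) (KK L κ)) :
    ∃ κ', Ent D h τ m L (u, κ, κ') := by
  obtain ⟨S, b', hS, hSb, hng, hn⟩ := forces_inv L h τ b _ _ hF
  have hsub : KK L κ ∪ S ⊆ range (2 ^ L) := Finset.union_subset (Finset.filter_subset _ _) hS
  obtain ⟨κ', hκ', hK⟩ := exists_KK L _ hsub
  refine ⟨κ', hu, hκ, hκ', hv, ?_, b', ?_, ?_, ?_⟩
  · show KK L κ ⊆ KK L κ'
    rw [hK]; exact Finset.subset_union_left
  · show (KK L κ').card + b' ≤ 2 ^ (L - m)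
    rw [hK]
    have := Finset.card_union_le (KK L κ) S
    omega
  · show ¬ Good L h τ (HU D L u hv) (KK L κ')
    rw [hK]; exact hng
  · show ∀ H', HS.le (HU D L u hv) H' → Good L h τ H' (KK L κ') →
      Forces L h τ (fun _ _ => False) b' H' (KK L κ')
    rw [hK]; exact hn

theorem table_exists (hpw : PWins) (D h τ m : ℕ) (hD : 1 ≤ D) (hτ : τ < 2 ^ h) :
    ∃ L T, ValidTable D h τ m L T := by
  classical
  obtain ⟨L, hL, hW⟩ := hpw D h τ m hD hτ
  let base : List (ℕ × ℕ × ℕ) :=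
    (List.range (2 ^ Mb L)).product ((List.range (2 ^ (2 ^ L))).product (List.range (2 ^ (2 ^ L))))
  let T : List (ℕ × ℕ × ℕ) := base.filter (fun b => decide (Ent D h τ m L b))
  have hT : ∀ b, b ∈ T ↔ Ent D h τ m L b := by
    intro b
    constructor
    · intro hb
      have := (List.mem_filter.1 hb).2
      simpa using this
    · intro hb
      refine List.mem_filter.2 ⟨?_, by simpa using hb⟩
      obtain ⟨u, κ, κ'⟩ := b
      obtain ⟨h1, h2, h3, -⟩ := hb
      exact List.mem_product.2 ⟨List.mem_range.2 h1, List.mem_product.2 ⟨List.mem_range.2 h2, List.mem_range.2 h3⟩⟩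
  refine ⟨L, T, hL, ?_, ?_⟩
  · intro u hu hv hg
    rw [goodC_iff D L h τ u 0 hv, KK_zero] at hg
    have hF := hW _ hg
    rw [← KK_zero L] at hF
    obtain ⟨κ', hE⟩ := ent_step D h τ m L u 0 _ hu (by positivity) hv (by rw [KK_zero]; simp) hF
    exact ⟨(u, 0, κ'), (hT _).2 hE, rfl, rfl⟩
  · intro b hb
    obtain ⟨h1, h2, h3, hv, hsub, b', hb', hng, hn⟩ := (hT b).1 hb
    refine ⟨?_, ?_, ?_, ?_⟩
    · intro w hw hwt
      have : w ∈ KK L b.2.1 := Finset.mem_filter.2 ⟨Finset.mem_range.2 hw, hwt⟩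
      exact (Finset.mem_filter.1 (hsub this)).2
    · rw [cntB_eq_card]
      have : (KK L b.2.2).card ≤ 2 ^ (L - m) := by omega
      exact this
    · rw [goodC_iff D L h τ b.1 b.2.2 hv]
      exact hng
    · intro u hu hvu hle hg
      rw [goodC_iff D L h τ u b.2.2 hvu] at hg
      have hF := hn (HU D L u hvu) ?_ hg
      · obtain ⟨κ', hE⟩ := ent_step D h τ m L u b.2.2 b' hu h3 hvu hb' hF
        exact ⟨(u, b.2.2, κ'), (hT _).2 hE, rfl, rfl⟩
      · intro n z t ht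
        rw [mem_HU] at ht ⊢
        exact ⟨ht.1, ht.2.1, ht.2.2.1, hle n (by omega) z ht.2.1 t ht.2.2.1 ht.2.2.2⟩

end Pool.Agent.Helper926.RK
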