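import Mathlib
import Pool.Agent.Helper926.RK.Table
import Pool.Agent.Helper926.RK.Comp
import Pool.Agent.Helper926.RK.Effective
import Pool.Agent.Helper926.RK.Meas
import Pool.Agent.Helper926.RK.Machine

set_option autoImplicit false

namespace Pool.Agent.Helper926.RK

open Finset

/-- the statement of the effective theorem -/
def Effective : Prop := ∀ (R : ℕ → ℕ → ℕ → ℕ → Prop),
    (REPred fun x : ℕ × ℕ × ℕ × ℕ => R x.1 x.2.1 x.2.2.1 x.2.2.2) →
    (∀ c i z (F : Finset ℕ), (∀ t ∈ F, R c i z t) → F.card ≤ 2 ^ (c + 1)) →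
    ∃ V : ℕ → ℕ → ℕ → Prop,
      (REPred fun x : ℕ × ℕ × ℕ => V x.1 x.2.1 x.2.2) ∧
      (∀ k, ∃ (L : ℕ → ℕ) (S : ℕ → Finset ℕ),
        (∀ j, k + j + 1 ≤ L j ∧ (S j).card ≤ 2 ^ (L j - (k + j + 1))) ∧
        ∀ l w, V k l w ↔ ∃ j, l = L j ∧ w ∈ S j) ∧
      (∀ k c h τ, τ < 2 ^ h → ∃ L t, h ≤ L ∧ t < 2 ^ L ∧ t / 2 ^ (L - h) = τ ∧
        ∀ z < 2 ^ L, ¬ V k L z → ∃ i ≤ L, ¬ R c i (z / 2 ^ (L - i)) (t / 2 ^ (L - i)))

theorem f_pow2 : Primrec (fun n : ℕ => 2 ^ n) := by
  have h : Primrec₂ (fun a b : ℕ => a ^ b) := Primrec₂.unpaired'.1 Nat.Primrec.pow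
  exact h.comp (Primrec.const 2) Primrec.id

theorem f_toStr : Computable₂ toStr := by
  have h : Primrec₂ toStr := by
    unfold Primrec₂ toStr
    refine Primrec.list_map (Primrec.list_range.comp Primrec.fst) ?_
    have h1 : Primrec fun x : (ℕ × ℕ) × ℕ => x.1.2 / 2 ^ (x.1.1 - 1 - x.2) % 2 := by
      refine Primrec.nat_mod.comp (Primrec.nat_div.comp (Primrec.snd.comp Primrec.fst) (f_pow2.comp ?_)) (Primrec.const 2)
      exact Primrec.nat_sub.comp (Primrec.nat_sub.comp (Primrec.fst.comp Primrec.fst) (Primrec.const 1)) Primrec.snd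
    exact (Primrec.eq.comp h1 (Primrec.const 1)).decide
  exact h.to_comp

theorem f_val : Computable val := by
  have h : Primrec val := by
    unfold val
    have h2 : Primrec Bool.toNat := Primrec.dom_finite _
    refine Primrec.list_foldl (f := fun l : List Bool => l) (g := fun _ : List Bool => (0 : ℕ))
      (h := fun (_ : List Bool) (s : ℕ × Bool) => 2 * s.1 + s.2.toNat) Primrec.id (Primrec.const 0) ?_
    exact Primrec.nat_add.comp (Primrec.nat_mul.comp (Primrec.const 2) (Primrec.fst.comp Primrec.snd))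
      (h2.comp (Primrec.snd.comp Primrec.snd))
  exact h.to_comp

theorem f_graph {U : List Bool → List Bool →. List Bool} (hU : Partrec₂ U) :
    REPred fun x : List Bool × List Bool × List Bool => x.2.2 ∈ U x.1 x.2.1 := by
  have h1 : Partrec fun x : List Bool × List Bool × List Bool => U x.1 x.2.1 :=
    hU.comp Computable.fst (Computable.fst.comp Computable.snd)
  have h2 : Partrec fun x : List Bool × List Bool × List Bool => (U x.1 x.2.1).bind
      fun y => (Part.assert (y = x.2.2) fun _ => Part.some ()) := by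
    refine Partrec.bind h1 ?_
    exact RE.eq (f := fun z : (List Bool × List Bool × List Bool) × List Bool => z.2)
      (g := fun z => z.1.2.2) Computable.snd (Computable.snd.comp (Computable.snd.comp Computable.fst))
  refine h2.dom_re.of_eq fun x => ?_
  rw [Part.dom_iff_mem]
  constructor
  · rintro ⟨u, hu⟩
    rw [Part.mem_bind_iff] at hu
    obtain ⟨y, hy, hu⟩ := hu
    rw [Part.mem_assert_iff] at hu
    obtain ⟨e, -⟩ := hu
    rwa [e] at hy
  · intro hx
    refine ⟨(), ?_⟩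
    rw [Part.mem_bind_iff]
    refine ⟨x.2.2, hx, ?_⟩
    rw [Part.mem_assert_iff]
    exact ⟨rfl, Part.mem_some _⟩

theorem f_val_toStr (n t : ℕ) (ht : t < 2 ^ n) : val (toStr n t) = t := by
  obtain ⟨B, hB, -⟩ := exists_code (fun _ => false) 0 n t (Nat.zero_le _) ht (by
    rw [Nat.sub_zero, Nat.div_eq_of_lt ht]
    have := code_lt (fun _ => false) 0
    rw [pow_zero, Nat.lt_one_iff] at this
    rw [this])
  have h1 : toStr n t = pre B n := by rw [← hB, toStr_code]
  rw [h1]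
  exact hB

def RRr (U : List Bool → List Bool →. List Bool) (c i z t : ℕ) : Prop :=
  t < 2 ^ i ∧ ∃ p : List Bool, p.length ≤ c ∧ toStr i t ∈ U p (toStr i z)

theorem RRr_re {U : List Bool → List Bool →. List Bool} (hU : Partrec₂ U) :
    REPred fun x : ℕ × ℕ × ℕ × ℕ => RRr U x.1 x.2.1 x.2.2.1 x.2.2.2 := by
  unfold RRr
  refine RE.and (RE.lt (Computable.snd.comp (Computable.snd.comp Computable.snd))
    (f_pow2.to_comp.comp (Computable.fst.comp Computable.snd))) ?_
  refine RE.ex (p := fun (x : ℕ × ℕ × ℕ × ℕ) (p : List Bool) => p.length ≤ x.1 ∧ toStr x.2.1 x.2.2.2 ∈ U p (toStr x.2.1 x.2.2.1)) ?_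
  refine RE.and (RE.le (Computable.list_length.comp Computable.snd) (Computable.fst.comp Computable.fst)) ?_
  refine RE.comp (f_graph hU) (f := fun x : (ℕ × ℕ × ℕ × ℕ) × List Bool => (x.2, toStr x.1.2.1 x.1.2.2.1, toStr x.1.2.1 x.1.2.2.2)) ?_
  refine Computable.snd.pair (Computable.pair ?_ ?_)
  · exact f_toStr.comp (Computable.fst.comp (Computable.snd.comp Computable.fst))
      (Computable.fst.comp (Computable.snd.comp (Computable.snd.comp Computable.fst)))
  · exact f_toStr.comp (Computable.fst.comp (Computable.snd.comp Computable.fst))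
      (Computable.snd.comp (Computable.snd.comp (Computable.snd.comp Computable.fst)))

theorem f_count (c : ℕ) (P : Finset (List Bool)) (h : ∀ p ∈ P, p.length ≤ c) : P.card ≤ 2 ^ (c + 1) := by
  have h1 : P ⊆ (Finset.univ : Finset (Σ k : Fin (c + 1), (Fin k → Bool))).image (fun s => List.ofFn s.2) := by
    intro p hp
    rw [Finset.mem_image]
    exact ⟨⟨⟨p.length, Nat.lt_succ_of_le (h p hp)⟩, p.get⟩, Finset.mem_univ _, List.ofFn_get p⟩
  refine (Finset.card_le_card h1).trans (Finset.card_image_le.trans ?_)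
  rw [Finset.card_univ, Fintype.card_sigma]
  simp only [Fintype.card_fun, Fintype.card_bool, Fintype.card_fin]
  rw [Fin.sum_univ_eq_sum_range (fun k => 2 ^ k) (c + 1), Nat.geomSum_eq le_rfl]
  simp

theorem RRr_card {U : List Bool → List Bool →. List Bool} (c i z : ℕ) (F : Finset ℕ) (h : ∀ t ∈ F, RRr U c i z t) :
    F.card ≤ 2 ^ (c + 1) := by
  classical
  have h1 : ∀ t, ∃ p : List Bool, t ∈ F → p.length ≤ c ∧ toStr i t ∈ U p (toStr i z) := by
    intro t
    by_cases ht : t ∈ F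
    · obtain ⟨-, p, hp⟩ := h t ht
      exact ⟨p, fun _ => hp⟩
    · exact ⟨[], fun h => absurd h ht⟩
  choose p hp using h1
  have hinj : Set.InjOn p (↑F : Set ℕ) := by
    intro t ht t' ht' e
    have h2 := (hp t ht).2
    have h3 := (hp t' ht').2
    rw [← e] at h3
    have h4 : toStr i t = toStr i t' := Part.mem_unique h2 h3
    rw [← f_val_toStr i t (h t ht).1, ← f_val_toStr i t' (h t' ht').1, h4]
  rw [← Finset.card_image_of_injOn hinj]
  refine f_count c _ fun q hq => ?_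
  obtain ⟨t, ht, rfl⟩ := Finset.mem_image.1 hq
  exact (hp t ht).1

theorem f_condK {U : List Bool → List Bool →. List Bool} {x y : List Bool} {c : ℕ} (h : condK U x y ≤ c) :
    ∃ p : List Bool, p.length ≤ c ∧ x ∈ U p y := by
  have h1 : condK U x y < ((c + 1 : ℕ) : ℕ∞) := lt_of_le_of_lt h (by exact_mod_cast Nat.lt_succ_self c)
  unfold condK at h1
  rw [iInf_lt_iff] at h1
  obtain ⟨p, hp⟩ := h1
  rw [iInf_lt_iff] at hp
  obtain ⟨hm, hp⟩ := hp
  have : p.length < c + 1 := by exact_mod_cast hp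
  exact ⟨p, by omega, hm⟩

theorem f_condK_le {U : List Bool → List Bool →. List Bool} {x y p : List Bool} (h : x ∈ U p y) :
    condK U x y ≤ p.length := by
  unfold condK
  exact iInf₂_le p h

/-- one step of the construction -/
theorem f_step {V : ℕ → ℕ → ℕ → Prop} {R : ℕ → ℕ → ℕ → ℕ → Prop}
    (h3 : ∀ k c h τ, τ < 2 ^ h → ∃ L t, h ≤ L ∧ t < 2 ^ L ∧ t / 2 ^ (L - h) = τ ∧
        ∀ z < 2 ^ L, ¬ V k L z → ∃ i ≤ L, ¬ R c i (z / 2 ^ (L - i)) (t / 2 ^ (L - i)))
    (e : ℕ) (s : ℕ × (ℕ → Bool)) : ∃ s' : ℕ × (ℕ → Bool), s.1 < s'.1 ∧ (∀ i < s.1, s'.2 i = s.2 i) ∧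
      ∃ L < s'.1, ∀ z < 2 ^ L, ¬ V e.unpair.1 L z →
        ∃ i ≤ L, ¬ R e.unpair.2 i (z / 2 ^ (L - i)) (code s'.2 L / 2 ^ (L - i)) := by
  obtain ⟨L, t, hL, ht, htau, hz⟩ := h3 e.unpair.1 e.unpair.2 s.1 (code s.2 s.1) (code_lt _ _)
  obtain ⟨B, hB1, hB2⟩ := exists_code s.2 s.1 L t hL ht htau
  refine ⟨(L + 1, B), Nat.lt_succ_of_le hL, hB2, L, Nat.lt_succ_self L, ?_⟩
  intro z hz1 hz2
  obtain ⟨i, hi, hR⟩ := hz z hz1 hz2
  refine ⟨i, hi, ?_⟩
  rw [hB1]
  exact hR

theorem f_constr {V : ℕ → ℕ → ℕ → Prop} {R : ℕ → ℕ → ℕ → ℕ → Prop}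
    (h3 : ∀ k c h τ, τ < 2 ^ h → ∃ L t, h ≤ L ∧ t < 2 ^ L ∧ t / 2 ^ (L - h) = τ ∧
        ∀ z < 2 ^ L, ¬ V k L z → ∃ i ≤ L, ¬ R c i (z / 2 ^ (L - i)) (t / 2 ^ (L - i))) :
    ∃ A : ℕ → Bool, ∀ k c, ∃ L, ∀ z < 2 ^ L, ¬ V k L z →
        ∃ i ≤ L, ¬ R c i (z / 2 ^ (L - i)) (code A L / 2 ^ (L - i)) := by
  choose nx hx1 hx2 hx3 using f_step h3
  let sq : ℕ → ℕ × (ℕ → Bool) := fun n => Nat.rec (0, fun _ => false) (fun e s => nx e s) n
  have hsq : ∀ n, sq (n + 1) = nx n (sq n) := fun n => rfl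
  have hmono : ∀ n, (sq n).1 < (sq (n + 1)).1 := fun n => by rw [hsq]; exact hx1 n _
  have hge : ∀ n, n ≤ (sq n).1 := by
    intro n
    induction n with
    | zero => exact Nat.zero_le _
    | succ n ih => exact Nat.succ_le_of_lt (lt_of_le_of_lt ih (hmono n))
  have hmon : Monotone fun n => (sq n).1 := monotone_nat_of_le_succ fun n => (hmono n).le
  have hag : ∀ n m, n ≤ m → ∀ i < (sq n).1, (sq m).2 i = (sq n).2 i := by
    intro n m hnm
    induction m, hnm using Nat.le_induction with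
    | base => intro i _; rfl
    | succ m hm ih =>
      intro i hi
      rw [hsq, hx2 m (sq m) i (lt_of_lt_of_le hi (hmon hm)), ih i hi]
  refine ⟨fun i => (sq (i + 1)).2 i, fun k c => ?_⟩
  have hA : ∀ n, ∀ i < (sq n).1, (sq (i + 1)).2 i = (sq n).2 i := by
    intro n i hi
    rcases le_total n (i + 1) with h | h
    · exact hag n (i + 1) h i hi
    · exact (hag (i + 1) n h i (lt_of_lt_of_le (Nat.lt_succ_self i) (hge (i + 1)))).symm
  obtain ⟨L, hL, hz⟩ := hx3 (Nat.pair k c) (sq (Nat.pair k c))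
  rw [← hsq] at hL hz
  refine ⟨L, ?_⟩
  have hc : code (fun i => (sq (i + 1)).2 i) L = code (sq (Nat.pair k c + 1)).2 L := by
    unfold code pre
    congr 1
    refine List.map_congr_left fun i hi => ?_
    rw [List.mem_range] at hi
    exact hA (Nat.pair k c + 1) i (hi.trans hL)
  rw [hc]
  simpa only [Nat.unpair_pair] using hz

theorem final_aux (heff : Effective) (U : List Bool → List Bool →. List Bool)
    (hU : Partrec₂ U) :
    ∃ A : ℕ → Bool, ∀ Z : ℕ → Bool, MLRandom Z → ¬ RKReducible U A Z := by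
  obtain ⟨V, hV1, hV2, hV3⟩ := heff (RRr U) (RRr_re hU) (fun c i z F h => RRr_card c i z F h)
  obtain ⟨A, hA⟩ := f_constr hV3
  refine ⟨A, fun Z hZ hred => ?_⟩
  have hcode : ∀ (Y : ℕ → Bool) (n : ℕ), val (pre Y n) = code Y n := fun _ _ => rfl
  have htest : IsMLTest (fun k σ => V k σ.length (val σ)) := by
    refine ⟨?_, ?_⟩
    · refine RE.comp hV1 (f := fun p : ℕ × List Bool => (p.1, p.2.length, val p.2)) ?_
      exact Computable.fst.pair ((Computable.list_length.comp Computable.snd).pair (f_val.comp Computable.snd))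
    · intro k
      obtain ⟨L, S, h1, h2⟩ := hV2 k
      have e : {Z : ℕ → Bool | ∃ n, V k (pre Z n).length (val (pre Z n))} = {Z | ∃ j, code Z (L j) ∈ S j} := by
        ext Y
        simp only [Set.mem_ofPred_eq, length_pre, hcode]
        constructor
        · rintro ⟨n, hn⟩
          obtain ⟨j, rfl, hj⟩ := (h2 _ _).1 hn
          exact ⟨j, hj⟩
        · rintro ⟨j, hj⟩
          exact ⟨L j, (h2 _ _).2 ⟨j, rfl, hj⟩⟩
      rw [e]
      exact coin_small k L S h1
  obtain ⟨k, hk⟩ := hZ _ htest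
  simp only [length_pre, hcode] at hk
  obtain ⟨c, hc⟩ := hred
  obtain ⟨L, hL⟩ := hA k c
  obtain ⟨i, hi, hR⟩ := hL (code Z L) (code_lt Z L) (hk L)
  rw [code_div Z i L hi, code_div A i L hi] at hR
  refine hR ⟨code_lt A i, ?_⟩
  obtain ⟨p, hp1, hp2⟩ := f_condK (hc i)
  refine ⟨p, hp1, ?_⟩
  rw [toStr_code, toStr_code]
  exact hp2

theorem final (heff : Effective) :
    ∃ A : ℕ → Bool, ∀ Z : ℕ → Bool, MLRandom Z → ∀ U : List Bool → List Bool →. List Bool,
      Partrec₂ U → ¬ RKReducible U A Z := by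
  obtain ⟨A, hA⟩ := final_aux heff pU pU_partrec
  refine ⟨A, fun Z hZ U hU hred => hA Z hZ ?_⟩
  obtain ⟨c, hc⟩ := hred
  obtain ⟨c', hc'⟩ := pU_sim hU
  refine ⟨c + c', fun n => ?_⟩
  obtain ⟨p, hp1, hp2⟩ := f_condK (hc n)
  obtain ⟨q, hq1, hq2⟩ := hc' p _ _ hp2
  refine (f_condK_le hq2).trans ?_
  have : q.length ≤ c + c' := by omega
  exact_mod_cast this

theorem effective_holds : Effective := by
  intro R hR hb
  exact effective (fun D h τ m hD hτ => table_exists pwins D h τ m hD hτ) cp_validTable R hR hb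

end Pool.Agent.Helper926.RK
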